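import Pool.Agent.J4.H86.EB.Multi

/-! # Points at which a polynomial is small are near to the zeros of a polynomial -/

set_option autoImplicit false

namespace Pool.Agent.J4.H86.FT

open Finset MvPolynomial Pool.Agent.J4.H86.EB

noncomputable section

lemma mo_cont {W : Type} [Fintype W] {d : ℕ} (β : W → Fin (d + 1)) :
    Continuous fun w : W → ℝ => mo w β := by
  unfold mo
  fun_prop

lemma near_zero (W I : Type) [Fintype W] [DecidableEq W] [Fintype I] (d : ℕ) (K ρ : ℝ) (hK : 0 ≤ K)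
    (hρ : 0 < ρ) :
    ∃ τ : ℝ, 0 < τ ∧ ∀ (a : (W → Fin (d + 1)) → ℝ), ‖a‖ = 1 → ∀ w : I → W → ℝ, (∀ j v, |w j v| ≤ K) →
      (∀ j, |∑ β, a β * mo (w j) β| ≤ τ) → ∃ w' : I → W → ℝ, (∀ j v, |w' j v - w j v| ≤ ρ) ∧
        ∃ a' : (W → Fin (d + 1)) → ℝ, a' ≠ 0 ∧ ∀ j, ∑ β, a' β * mo (w' j) β = 0 := by
  classical
  obtain ⟨ρ', hρ'⟩ : ∃ ρ' : ℝ, ρ' = min ρ (1 / 2) := ⟨_, rfl⟩
  have hρ'0 : 0 < ρ' := by rw [hρ']; exact lt_min hρ (by norm_num)
  have hρ'1 : ρ' ≤ ρ := by rw [hρ']; exact min_le_left _ _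
  have hρ'2 : ρ' ≤ 1 / 2 := by rw [hρ']; exact min_le_right _ _
  obtain ⟨Z, hZ⟩ : ∃ Z : Set (((W → Fin (d + 1)) → ℝ) × (I → W → ℝ)),
      Z = {x | ∀ j, ∑ β, x.1 β * mo (x.2 j) β = 0} := ⟨_, rfl⟩
  obtain ⟨X', hX'⟩ : ∃ X' : Set (((W → Fin (d + 1)) → ℝ) × (I → W → ℝ)),
      X' = (Metric.sphere 0 1 ×ˢ Metric.closedBall 0 K) \ Metric.thickening ρ' Z := ⟨_, rfl⟩
  obtain ⟨F, hF⟩ : ∃ F : ((W → Fin (d + 1)) → ℝ) × (I → W → ℝ) → ℝ,
      F = fun x => ∑ j, |∑ β, x.1 β * mo (x.2 j) β| := ⟨_, rfl⟩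
  have hFc : Continuous F := by
    rw [hF]
    refine continuous_finset_sum _ fun j _ => Continuous.abs ?_
    refine continuous_finset_sum _ fun β _ => Continuous.mul ?_ ?_
    · fun_prop
    · exact (mo_cont β).comp (by fun_prop)
  have hXc : IsCompact X' := by
    rw [hX']
    exact ((isCompact_sphere _ _).prod (isCompact_closedBall _ _)).diff Metric.isOpen_thickening
  have hpos : ∀ x ∈ X', 0 < F x := by
    intro x hx
    have h0 : 0 ≤ F x := by
      rw [hF]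
      exact Finset.sum_nonneg fun j _ => abs_nonneg _
    rcases h0.lt_or_eq with h | h
    · exact h
    · exfalso
      rw [hX'] at hx
      apply hx.2
      apply Metric.self_subset_thickening hρ'0
      rw [hZ]
      intro j
      rw [hF] at h
      have := (Finset.sum_eq_zero_iff_of_nonneg (fun j _ => abs_nonneg _)).1 h.symm j (mem_univ _)
      exact abs_eq_zero.1 this
  obtain ⟨m, hm0, hm⟩ : ∃ m : ℝ, 0 < m ∧ ∀ x ∈ X', m ≤ F x := by
    rcases X'.eq_empty_or_nonempty with he | hne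
    · refine ⟨1, one_pos, fun x hx => ?_⟩
      rw [he] at hx
      exact absurd hx (Set.notMem_empty x)
    · obtain ⟨x0, hx0, hmin⟩ := hXc.exists_isMinOn hne hFc.continuousOn
      exact ⟨F x0, hpos x0 hx0, fun x hx => hmin hx⟩
  refine ⟨m / (2 * (Fintype.card I + 1)), by positivity, ?_⟩
  intro a ha w hw hsm
  have hx : (a, w) ∈ Metric.thickening ρ' Z := by
    by_contra hcon
    have hmem : (a, w) ∈ X' := by
      rw [hX']
      refine ⟨⟨by rw [mem_sphere_zero_iff_norm]; exact ha, ?_⟩, hcon⟩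
      rw [mem_closedBall_zero_iff, pi_norm_le_iff_of_nonneg hK]
      intro j
      rw [pi_norm_le_iff_of_nonneg hK]
      intro v
      rw [Real.norm_eq_abs]
      exact hw j v
    have h1 := hm _ hmem
    have h2 : F (a, w) ≤ Fintype.card I * (m / (2 * (Fintype.card I + 1))) := by
      rw [hF]
      calc ∑ j, |∑ β, a β * mo (w j) β| ≤ ∑ _j : I, m / (2 * (Fintype.card I + 1)) :=
            Finset.sum_le_sum fun j _ => hsm j
        _ = _ := by rw [Finset.sum_const, Finset.card_univ, nsmul_eq_mul]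
    have h3 : Fintype.card I * (m / (2 * (Fintype.card I + 1))) < m := by
      rw [mul_div_assoc', div_lt_iff₀ (by positivity)]
      have : (0 : ℝ) ≤ Fintype.card I := Nat.cast_nonneg _
      nlinarith
    linarith
  rw [Metric.mem_thickening_iff] at hx
  obtain ⟨z, hz, hd⟩ := hx
  rw [hZ] at hz
  rw [Prod.dist_eq, max_lt_iff] at hd
  obtain ⟨hd1, hd2⟩ := hd
  refine ⟨z.2, fun j v => ?_, z.1, ?_, hz⟩
  · have h1 : dist (z.2 j v) (w j v) ≤ dist z.2 w := (dist_le_pi_dist (z.2 j) (w j) v).trans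
      (dist_le_pi_dist z.2 w j)
    rw [Real.dist_eq, dist_comm z.2 w] at h1
    exact h1.trans (hd2.le.trans hρ'1)
  · intro h0
    rw [h0, dist_zero_right, ha] at hd1
    linarith

/-- so the determinant of the monomials vanishes at a near point -/
lemma near_det (W : Type) [Fintype W] [DecidableEq W] (d : ℕ) (K ρ : ℝ) (hK : 0 ≤ K) (hρ : 0 < ρ) :
    ∃ τ : ℝ, 0 < τ ∧ ∀ (a : (W → Fin (d + 1)) → ℝ), a ≠ 0 → ∀ w : (W → Fin (d + 1)) × W → ℝ,
      (∀ v, |w v| ≤ K) → (∀ j, |∑ β, a β * mo (fun i => w (j, i)) β| ≤ τ * ‖a‖) →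
      ∃ w' : (W → Fin (d + 1)) × W → ℝ, (∀ v, |w' v - w v| ≤ ρ) ∧ eval w' (Dl W d) = 0 := by
  obtain ⟨τ, hτ, h⟩ := near_zero W (W → Fin (d + 1)) d K ρ hK hρ
  refine ⟨τ, hτ, ?_⟩
  intro a ha w hw hsm
  have hn : 0 < ‖a‖ := norm_pos_iff.2 ha
  obtain ⟨w', hw', a', ha', h0⟩ := h (‖a‖⁻¹ • a) (by
      rw [norm_smul, norm_inv, norm_norm, inv_mul_cancel₀ hn.ne']) (fun j i => w (j, i))
    (fun j i => hw (j, i)) (by
      intro j
      have e : ∑ β, (‖a‖⁻¹ • a) β * mo (fun i => w (j, i)) β =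
          ‖a‖⁻¹ * ∑ β, a β * mo (fun i => w (j, i)) β := by
        rw [Finset.mul_sum]
        refine Finset.sum_congr rfl fun β _ => ?_
        rw [Pi.smul_apply, smul_eq_mul, mul_assoc]
      rw [e, abs_mul, abs_of_pos (inv_pos.2 hn), inv_mul_le_iff₀ hn, mul_comm]
      exact hsm j)
  refine ⟨fun v => w' v.1 v.2, fun v => hw' v.1 v.2, ?_⟩
  refine Dl_zero (ofArr a') (ofArr_ne a' ha') (degreeOf_ofArr a') _ fun j => ?_
  rw [eval_ofArr]
  exact h0 j

end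

end Pool.Agent.J4.H86.FT
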