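import Pool.Agent.J4.H86.EB.Blk

/-! # The determinant in differences of terms is rarely almost zero -/

set_option autoImplicit false

namespace Pool.Agent.J4.H86.FT

open Finset MvPolynomial Filter Pool.Agent.J4.H86.EB

noncomputable section

lemma deg_aeval {σ τ : Type} (f : σ → MvPolynomial τ ℝ) (hf : ∀ i, (f i).totalDegree ≤ 1)
    (P : MvPolynomial σ ℝ) : (aeval f P).totalDegree ≤ P.totalDegree := by
  have h1 : aeval f P = ∑ s ∈ P.support, C (coeff s P) * ∏ i ∈ s.support, f i ^ s i := by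
    rw [aeval_def, eval₂_eq]
    rfl
  rw [h1]
  apply totalDegree_finsetSum_le
  intro s hs
  refine (totalDegree_mul _ _).trans ?_
  rw [totalDegree_C, zero_add]
  refine (totalDegree_finsetProd _ _).trans ?_
  refine le_trans (Finset.sum_le_sum fun i _ => (totalDegree_pow _ _).trans
    (Nat.mul_le_mul_left _ (hf i))) ?_
  have h2 := le_totalDegree hs
  unfold Finsupp.sum at h2
  simpa using h2

/-- `P` in the differences `(x v - x none) / h` -/
def dif {V : Type} (h : ℝ) (P : MvPolynomial V ℝ) : MvPolynomial (Option V) ℝ :=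
  aeval (fun v => C h⁻¹ * (X (some v) - X none)) P

lemma eval_dif {V : Type} (h : ℝ) (P : MvPolynomial V ℝ) (x : Option V → ℝ) :
    eval x (dif h P) = eval (fun v => h⁻¹ * (x (some v) - x none)) P := by
  unfold dif
  have h1 : eval x (aeval (fun v => C h⁻¹ * (X (some v) - X none)) P) =
      eval (fun v => eval x (C h⁻¹ * (X (some v) - X none))) P :=
    MvPolynomial.eval₂Hom_bind₁ _ _ _ _
  rw [h1]
  congr 2
  funext v
  simp

lemma dif_ne {V : Type} {h : ℝ} (hh : h ≠ 0) {P : MvPolynomial V ℝ} (hP : P ≠ 0) : dif h P ≠ 0 := by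
  intro h0
  apply hP
  apply MvPolynomial.funext
  intro y
  rw [map_zero]
  have h1 := eval_dif h P (fun v => v.elim 0 (fun v => h * y v))
  rw [h0, map_zero] at h1
  rw [h1]
  congr 2
  funext v
  simp only [Option.elim]
  rw [sub_zero, ← mul_assoc, inv_mul_cancel₀ hh, one_mul]

lemma dif_deg {V : Type} (h : ℝ) (P : MvPolynomial V ℝ) : (dif h P).totalDegree ≤ P.totalDegree := by
  apply deg_aeval
  intro v
  refine (totalDegree_mul _ _).trans ?_
  rw [totalDegree_C, zero_add]
  refine (totalDegree_sub _ _).trans ?_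
  simp

lemma pat (g : ℕ → ℝ) (hmain : Rare g) (V : Type) [Fintype V] [DecidableEq V] (P : MvPolynomial V ℝ)
    (hP : P ≠ 0) (σ η : ℝ) (hσ : 0 < σ) (hη : 0 < η) :
    ∃ δ : ℝ, 0 < δ ∧ ∀ᶠ r : ℕ in atTop, ∀ N : ℕ, 1 ≤ N → (2 * r : ℝ) * Real.log (2 * r) ≤ Real.log N →
    ∀ s : V → ℕ, (∀ v, s v ≤ 2 * r) → (∀ v, (r : ℝ) ^ σ ≤ s v) →
    (∀ v w, v ≠ w → (r : ℝ) ^ σ ≤ |(s v : ℝ) - s w|) → ∀ h : ℝ, 0 < h → ∀ E : Finset ℕ,
    (∀ n ∈ E, 1 ≤ n ∧ n ≤ N ∧ 1 ≤ g n ∧ ∃ w : V → ℝ, eval w P = 0 ∧
      ∀ v, |g (n + s v) - (g n + h * w v)| ≤ δ * (Real.sqrt (Real.log r) / Real.log (g n))) →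
    (E.card : ℝ) ≤ η * N := by
  classical
  obtain ⟨δ, hδ, hev⟩ := hmain (Option V) none P.totalDegree (σ / 2) η (by positivity) hη
  refine ⟨δ, hδ, ?_⟩
  have hev2 := (tendsto_id.const_mul_atTop' (by norm_num : 0 < 2) : Tendsto (fun r : ℕ => 2 * r)
    atTop atTop).eventually hev
  filter_upwards [hev2, eventually_ge_atTop 2] with r hr hr2
  intro N hN hrN s hs hs0 hsep h hh E hE
  have hr2' : (2 : ℝ) ≤ r := by exact_mod_cast hr2
  have hr0 : (0 : ℝ) < r := by linarith
  have hρ2 : ((2 * r : ℕ) : ℝ) ^ (σ / 2) ≤ (r : ℝ) ^ σ := by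
    have h1 : ((2 * r : ℕ) : ℝ) ≤ (r : ℝ) ^ (2 : ℝ) := by
      push_cast
      rw [Real.rpow_two]
      nlinarith
    calc ((2 * r : ℕ) : ℝ) ^ (σ / 2) ≤ ((r : ℝ) ^ (2 : ℝ)) ^ (σ / 2) :=
          Real.rpow_le_rpow (Nat.cast_nonneg _) h1 (by positivity)
      _ = (r : ℝ) ^ σ := by rw [← Real.rpow_mul hr0.le]; congr 1; ring
  refine hr N hN (by push_cast; exact hrN) (fun v => v.elim 0 s) rfl (fun v => ?_) (fun v w => ?_)
    (dif h P) (dif_ne hh.ne' hP) (dif_deg h P) E ?_
  · cases v with
    | none => exact Nat.zero_le _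
    | some v => exact hs v
  · cases v with
    | none =>
      cases w with
      | none => exact fun h => absurd rfl h
      | some w =>
        intro _
        simp only [Option.elim, Nat.cast_zero, zero_sub, abs_neg]
        rw [abs_of_nonneg (Nat.cast_nonneg _)]
        exact hρ2.trans (hs0 w)
    | some v =>
      cases w with
      | none =>
        intro _
        simp only [Option.elim, Nat.cast_zero, sub_zero]
        rw [abs_of_nonneg (Nat.cast_nonneg _)]
        exact hρ2.trans (hs0 v)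
      | some w =>
        intro hvw
        exact hρ2.trans (hsep v w (fun h => hvw (by rw [h])))
  · intro n hn
    obtain ⟨h1, h2, h3, w, h4, h5⟩ := hE n hn
    refine ⟨h1, h2, fun v => v.elim (g n) (fun v => g n + h * w v), ?_, rfl, fun v => ?_⟩
    · rw [eval_dif, ← h4]
      congr 2
      funext v
      simp only [Option.elim]
      rw [add_sub_cancel_left, ← mul_assoc, inv_mul_cancel₀ hh.ne', one_mul]
    · have hl : 0 ≤ Real.log (g n) := Real.log_nonneg h3
      have hq : Real.sqrt (Real.log r) ≤ Real.sqrt (Real.log ((2 * r : ℕ) : ℝ)) := by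
        apply Real.sqrt_le_sqrt
        apply Real.log_le_log hr0
        push_cast
        linarith
      cases v with
      | none =>
        simp only [Option.elim, add_zero, sub_self, abs_zero]
        positivity
      | some v =>
        simp only [Option.elim]
        refine (h5 v).trans ?_
        apply mul_le_mul_of_nonneg_left _ hδ.le
        exact div_le_div_of_nonneg_right hq hl

end

end Pool.Agent.J4.H86.FT
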