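import Mathlib

/-! # Sums of few exponentials with small exponents are close to polynomials -/

set_option autoImplicit false

namespace Pool.Agent.J4.H86.FT

open Finset

noncomputable section

/-- the polynomial with the zeros `l j` -/
def cp {T : ℕ} (l : Fin T → ℝ) : Polynomial ℝ := ∏ j, (Polynomial.X - Polynomial.C (l j))

lemma cp_monic {T : ℕ} (l : Fin T → ℝ) : (cp l).Monic :=
  Polynomial.monic_prod_of_monic _ _ fun j _ => Polynomial.monic_X_sub_C _

lemma cp_deg {T : ℕ} (l : Fin T → ℝ) : (cp l).natDegree = T := by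
  unfold cp
  rw [Polynomial.natDegree_prod_of_monic _ _ fun _ _ => Polynomial.monic_X_sub_C _]
  simp

lemma cp_eval {T : ℕ} (l : Fin T → ℝ) (j : Fin T) : (cp l).eval (l j) = 0 := by
  unfold cp
  rw [Polynomial.eval_prod]
  exact Finset.prod_eq_zero (mem_univ j) (by simp)

lemma cp_coeff {T : ℕ} (l : Fin T → ℝ) {Λ : ℝ} (h : ∀ j, |l j| ≤ Λ) (i : ℕ) :
    |(cp l).coeff i| ≤ Λ ^ (T - i) * (T.choose i) := by
  have h1 := Polynomial.coeff_le_of_roots_le (p := cp l) (f := RingHom.id ℝ) (B := Λ) i (cp_monic l)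
    (by
      rw [Polynomial.map_id]
      exact Polynomial.Splits.prod fun j _ => Polynomial.Splits.X_sub_C _)
    (by
      intro z hz
      rw [Polynomial.map_id, Polynomial.mem_roots (cp_monic l).ne_zero, Polynomial.IsRoot.def] at hz
      unfold cp at hz
      rw [Polynomial.eval_prod, Finset.prod_eq_zero_iff] at hz
      obtain ⟨j, -, hj⟩ := hz
      rw [Polynomial.eval_sub, Polynomial.eval_X, Polynomial.eval_C, sub_eq_zero] at hj
      rw [hj]
      exact h j)
  rw [Polynomial.map_id, cp_deg, Real.norm_eq_abs] at h1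
  exact h1

/-- power sums with weights -/
def D {T : ℕ} (C l : Fin T → ℝ) (m : ℕ) : ℝ := ∑ j, C j * l j ^ m

lemma rec {T : ℕ} (C l : Fin T → ℝ) (s : ℕ) :
    D C l (s + T) = -∑ i ∈ range T, (cp l).coeff i * D C l (s + i) := by
  have h1 : ∀ j, l j ^ T = -∑ i ∈ range T, (cp l).coeff i * l j ^ i := by
    intro j
    have h2 := cp_eval l j
    rw [Polynomial.eval_eq_sum_range, cp_deg, Finset.sum_range_succ] at h2
    have h3 := (cp_monic l).coeff_natDegree
    rw [cp_deg] at h3
    rw [h3] at h2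
    linarith
  unfold D
  have h4 : ∀ i, (cp l).coeff i * ∑ j, C j * l j ^ (s + i) =
      ∑ j, C j * l j ^ s * ((cp l).coeff i * l j ^ i) := by
    intro i
    rw [Finset.mul_sum]
    refine Finset.sum_congr rfl fun j _ => ?_
    rw [pow_add]
    ring
  simp only [h4]
  rw [Finset.sum_comm, ← Finset.sum_neg_distrib]
  refine Finset.sum_congr rfl fun j _ => ?_
  rw [← Finset.mul_sum, pow_add, h1 j]
  ring

/-- if the first power sums vanish, all do -/
lemma D_zero {T : ℕ} (C l : Fin T → ℝ) (h : ∀ i, i < T → D C l i = 0) (m : ℕ) : D C l m = 0 := by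
  induction m using Nat.strong_induction_on with
  | _ m ih =>
    by_cases hm : m < T
    · exact h m hm
    · obtain ⟨s, rfl⟩ := Nat.exists_eq_add_of_le' (not_lt.1 hm)
      rw [rec]
      rw [Finset.sum_eq_zero, neg_zero]
      intro i hi
      rw [ih (s + i) (by have := Finset.mem_range.1 hi; omega), mul_zero]

lemma coeff_sum_le {T : ℕ} (l : Fin T → ℝ) {Λ : ℝ} (hΛ0 : 0 ≤ Λ) (hΛ1 : Λ ≤ 1) (h : ∀ j, |l j| ≤ Λ) :
    ∑ i ∈ range T, |(cp l).coeff i| ≤ 2 ^ T * Λ := by
  calc ∑ i ∈ range T, |(cp l).coeff i| ≤ ∑ i ∈ range T, Λ * (T.choose i) := by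
        refine Finset.sum_le_sum fun i hi => (cp_coeff l h i).trans ?_
        apply mul_le_mul_of_nonneg_right _ (Nat.cast_nonneg _)
        have : T - i ≠ 0 := by have := Finset.mem_range.1 hi; omega
        exact pow_le_of_le_one hΛ0 hΛ1 this
    _ ≤ ∑ i ∈ range (T + 1), Λ * (T.choose i) :=
        Finset.sum_le_sum_of_subset_of_nonneg (Finset.range_subset_range.2 (Nat.le_succ _))
          fun i _ _ => by positivity
    _ = 2 ^ T * Λ := by
        rw [← Finset.mul_sum]
        have := Nat.sum_range_choose T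
        have h2 : (∑ i ∈ range (T + 1), (T.choose i : ℝ)) = 2 ^ T := by exact_mod_cast this
        rw [h2, mul_comm]

/-- the later power sums are smaller than the first ones -/
lemma D_small {T : ℕ} (C l : Fin T → ℝ) {Λ S : ℝ} (hΛ0 : 0 ≤ Λ) (hΛ1 : 2 ^ T * Λ ≤ 1)
    (h : ∀ j, |l j| ≤ Λ) (hS : ∀ i, i < T → |D C l i| ≤ S) (hS0 : 0 ≤ S) (m : ℕ) :
    |D C l m| ≤ S ∧ (T ≤ m → |D C l m| ≤ 2 ^ T * Λ * S) := by
  have hΛ1' : Λ ≤ 1 := by
    have : (1 : ℝ) ≤ 2 ^ T := one_le_pow₀ (by norm_num)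
    nlinarith
  induction m using Nat.strong_induction_on with
  | _ m ih =>
    have key : T ≤ m → |D C l m| ≤ 2 ^ T * Λ * S := by
      intro hm
      obtain ⟨s, rfl⟩ := Nat.exists_eq_add_of_le' hm
      rw [rec, abs_neg]
      refine (Finset.abs_sum_le_sum_abs _ _).trans ?_
      calc ∑ i ∈ range T, |(cp l).coeff i * D C l (s + i)| ≤ ∑ i ∈ range T, |(cp l).coeff i| * S := by
            refine Finset.sum_le_sum fun i hi => ?_
            rw [abs_mul]
            exact mul_le_mul_of_nonneg_left (ih (s + i) (by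
              have := Finset.mem_range.1 hi; omega)).1 (abs_nonneg _)
        _ = (∑ i ∈ range T, |(cp l).coeff i|) * S := by rw [Finset.sum_mul]
        _ ≤ _ := mul_le_mul_of_nonneg_right (coeff_sum_le l hΛ0 hΛ1' h) hS0
    refine ⟨?_, key⟩
    by_cases hm : m < T
    · exact hS m hm
    · exact (key (not_lt.1 hm)).trans (mul_le_of_le_one_left hS0 hΛ1)

lemma hasSum_exp (x : ℝ) : HasSum (fun n : ℕ => x ^ n / (n.factorial : ℝ)) (Real.exp x) := by
  have h := NormedSpace.expSeries_div_hasSum_exp (𝔸 := ℝ) x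
  rw [← Real.exp_eq_exp_ℝ] at h
  exact h

lemma hasSum_D {T : ℕ} (C l : Fin T → ℝ) :
    HasSum (fun m : ℕ => D C l m / (m.factorial : ℝ)) (∑ j, C j * Real.exp (l j)) := by
  have hj : ∀ j ∈ (univ : Finset (Fin T)), HasSum (fun m : ℕ => C j * (l j ^ m / (m.factorial : ℝ)))
      (C j * Real.exp (l j)) := by
    intro j _
    have h0 := hasSum_exp (l j)
    exact HasSum.mul_left (C j) h0
  have h := hasSum_sum hj
  have e : (fun m : ℕ => D C l m / (m.factorial : ℝ)) =
      fun m : ℕ => ∑ j, C j * (l j ^ m / (m.factorial : ℝ)) := by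
    funext m
    unfold D
    rw [Finset.sum_div]
    exact Finset.sum_congr rfl fun j _ => by ring
  rw [e]
  exact h

/-- **a sum of exponentials with small exponents is close to its Taylor polynomial** -/
lemma approx {T : ℕ} (C l : Fin T → ℝ) {Λ S : ℝ} (hΛ0 : 0 ≤ Λ) (hΛ1 : 2 ^ T * Λ ≤ 1)
    (h : ∀ j, |l j| ≤ Λ) (hS : ∀ i, i < T → |D C l i| ≤ S) (hS0 : 0 ≤ S) :
    |∑ j, C j * Real.exp (l j) - ∑ m ∈ range T, D C l m / (m.factorial : ℝ)| ≤
      2 ^ T * Λ * S * Real.exp 1 := by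
  have h1 := hasSum_D C l
  have h2 := h1.summable.sum_add_tsum_nat_add T
  rw [h1.tsum_eq] at h2
  rw [← h2, add_sub_cancel_left]
  have hs1 : Summable (fun m : ℕ => D C l (m + T) / ((m + T).factorial : ℝ)) :=
    (summable_nat_add_iff T).2 h1.summable
  have h3 : HasSum (fun m : ℕ => 2 ^ T * Λ * S * (1 / (m.factorial : ℝ))) (2 ^ T * Λ * S * Real.exp 1) := by
    have := (hasSum_exp 1).mul_left (2 ^ T * Λ * S)
    simpa using this
  have h4 : ∀ m : ℕ, ‖D C l (m + T) / ((m + T).factorial : ℝ)‖ ≤ 2 ^ T * Λ * S * (1 / (m.factorial : ℝ)) := by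
    intro m
    rw [Real.norm_eq_abs, abs_div, abs_of_pos (by positivity : (0 : ℝ) < ((m + T).factorial : ℝ)),
      div_eq_mul_one_div]
    apply mul_le_mul ((D_small C l hΛ0 hΛ1 h hS hS0 (m + T)).2 (Nat.le_add_left _ _)) _
      (by positivity) (by positivity)
    apply one_div_le_one_div_of_le (by positivity)
    exact_mod_cast Nat.factorial_le (Nat.le_add_right m T)
  have h5 := tsum_of_norm_bounded h3 h4
  rw [Real.norm_eq_abs] at h5
  exact h5

lemma exp_zero {T : ℕ} (C l : Fin T → ℝ) (h : ∀ i, i < T → D C l i = 0) :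
    ∑ j, C j * Real.exp (l j) = 0 := by
  have h1 := hasSum_D C l
  have h2 : (fun m : ℕ => D C l m / (m.factorial : ℝ)) = fun _ => 0 := by
    funext m
    rw [D_zero C l h m, zero_div]
  rw [h2] at h1
  exact h1.unique hasSum_zero

end

end Pool.Agent.J4.H86.FT
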