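import Pool.Agent.J4.H86.EB.Grid
import Pool.Agent.J4.H86.FT.Exp

/-! # The Taylor polynomial of a sum of few exponentials in several variables -/

set_option autoImplicit false

namespace Pool.Agent.J4.H86.FT

open Finset MvPolynomial Pool.Agent.J4.H86.EB

noncomputable section

variable {W : Type} [Fintype W] [DecidableEq W] {T : ℕ}

/-- the linear forms -/
def lam (μ : Fin T → W → ℝ) (w : W → ℝ) (j : Fin T) : ℝ := ∑ v, μ j v * w v

/-- the part of degree `l` of the Taylor polynomial -/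
def Ql (C' : Fin T → ℝ) (μ : Fin T → W → ℝ) (l : ℕ) : MvPolynomial W ℝ :=
  ∑ j, C (C' j / (l.factorial : ℝ)) * (∑ v, C (μ j v) * X v) ^ l

/-- the Taylor polynomial -/
def Q (C' : Fin T → ℝ) (μ : Fin T → W → ℝ) : MvPolynomial W ℝ := ∑ l ∈ range T, Ql C' μ l

/-- its coefficients -/
def co (C' : Fin T → ℝ) (μ : Fin T → W → ℝ) : (W → Fin (T + 1)) → ℝ := fun β => coeff (ex β) (Q C' μ)

lemma eval_Ql (C' : Fin T → ℝ) (μ : Fin T → W → ℝ) (l : ℕ) (w : W → ℝ) :
    eval w (Ql C' μ l) = D C' (lam μ w) l / (l.factorial : ℝ) := by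
  unfold Ql D lam
  simp only [map_sum, map_mul, map_pow, eval_C, eval_X]
  rw [Finset.sum_div]
  exact Finset.sum_congr rfl fun j _ => by ring

lemma hom_Ql (C' : Fin T → ℝ) (μ : Fin T → W → ℝ) (l : ℕ) : (Ql C' μ l).IsHomogeneous l := by
  unfold Ql
  refine IsHomogeneous.sum _ _ _ fun j _ => ?_
  have h1 : (∑ v, C (μ j v) * X v : MvPolynomial W ℝ).IsHomogeneous 1 :=
    IsHomogeneous.sum _ _ _ fun v _ => isHomogeneous_C_mul_X _ _
  have h2 := (isHomogeneous_C W (C' j / (l.factorial : ℝ))).mul (h1.pow l)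
  simpa using h2

lemma deg_Q (C' : Fin T → ℝ) (μ : Fin T → W → ℝ) (v : W) : (Q C' μ).degreeOf v ≤ T := by
  refine (degreeOf_le_totalDegree _ _).trans ?_
  unfold Q
  refine totalDegree_finsetSum_le fun l hl => ?_
  exact (hom_Ql C' μ l).totalDegree_le.trans (Finset.mem_range.1 hl).le

lemma deg_Ql (C' : Fin T → ℝ) (μ : Fin T → W → ℝ) {l : ℕ} (hl : l < T) (v : W) :
    (Ql C' μ l).degreeOf v ≤ T :=
  (degreeOf_le_totalDegree _ _).trans ((hom_Ql C' μ l).totalDegree_le.trans hl.le)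

lemma eval_Q (C' : Fin T → ℝ) (μ : Fin T → W → ℝ) (w : W → ℝ) :
    ∑ β, co C' μ β * mo w β = ∑ l ∈ range T, D C' (lam μ w) l / (l.factorial : ℝ) := by
  have h := eval_sum (Q C' μ) (deg_Q C' μ) w
  have h2 : eval w (Q C' μ) = ∑ l ∈ range T, D C' (lam μ w) l / (l.factorial : ℝ) := by
    unfold Q
    rw [map_sum]
    exact Finset.sum_congr rfl fun l _ => eval_Ql C' μ l w
  rw [← h2, h]
  rfl

lemma coeff_Ql_le (C' : Fin T → ℝ) (μ : Fin T → W → ℝ) {l : ℕ} (hl : l < T) (s : W →₀ ℕ) :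
    |coeff s (Ql C' μ l)| ≤ |coeff s (Q C' μ)| := by
  by_cases hs : s.degree = l
  · have : coeff s (Q C' μ) = coeff s (Ql C' μ l) := by
      unfold Q
      rw [coeff_sum, Finset.sum_eq_single l]
      · intro l' _ hl'
        exact (hom_Ql C' μ l').coeff_eq_zero (by rw [hs]; exact fun h => hl' h.symm)
      · intro h
        exact absurd (Finset.mem_range.2 hl) h
    rw [this]
  · rw [(hom_Ql C' μ l).coeff_eq_zero hs, abs_zero]
    exact abs_nonneg _

lemma mo_le {d : ℕ} {K : ℝ} (hK : 1 ≤ K) {w : W → ℝ} (hw : ∀ v, |w v| ≤ K) (β : W → Fin (d + 1)) :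
    |mo w β| ≤ (K ^ d) ^ Fintype.card W := by
  unfold mo
  rw [Finset.abs_prod]
  calc ∏ v, |w v ^ (β v : ℕ)| ≤ ∏ _v : W, K ^ d := by
        refine Finset.prod_le_prod (fun v _ => abs_nonneg _) fun v _ => ?_
        rw [abs_pow]
        exact (pow_le_pow_left₀ (abs_nonneg _) (hw v) _).trans
          (pow_le_pow_right₀ hK (Nat.lt_succ_iff.1 (β v).2))
    _ = _ := by rw [Finset.prod_const, Finset.card_univ]

lemma D_le {K : ℝ} (hK : 1 ≤ K) (C' : Fin T → ℝ) (μ : Fin T → W → ℝ) {w : W → ℝ} (hw : ∀ v, |w v| ≤ K)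
    {l : ℕ} (hl : l < T) :
    |D C' (lam μ w) l| ≤ (T.factorial : ℝ) * (Fintype.card (W → Fin (T + 1)) *
      (K ^ T) ^ Fintype.card W * ‖co C' μ‖) := by
  have h1 : |eval w (Ql C' μ l)| ≤ Fintype.card (W → Fin (T + 1)) * (K ^ T) ^ Fintype.card W * ‖co C' μ‖ := by
    rw [eval_sum (Ql C' μ l) (deg_Ql C' μ hl) w]
    refine (Finset.abs_sum_le_sum_abs _ _).trans ?_
    calc ∑ β : W → Fin (T + 1), |coeff (ex β) (Ql C' μ l) * ∏ v, w v ^ (β v : ℕ)| ≤
        ∑ _β : W → Fin (T + 1), ‖co C' μ‖ * (K ^ T) ^ Fintype.card W := by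
          refine Finset.sum_le_sum fun β _ => ?_
          rw [abs_mul]
          apply mul_le_mul _ (mo_le hK hw β) (abs_nonneg _) (norm_nonneg _)
          refine (coeff_Ql_le C' μ hl _).trans ?_
          have := norm_le_pi_norm (co C' μ) β
          rw [Real.norm_eq_abs] at this
          exact this
      _ = _ := by rw [Finset.sum_const, Finset.card_univ, nsmul_eq_mul]; ring
  rw [eval_Ql, abs_div, abs_of_pos (by positivity : (0 : ℝ) < (l.factorial : ℝ)),
    div_le_iff₀ (by positivity)] at h1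
  refine h1.trans ?_
  rw [mul_comm]
  apply mul_le_mul_of_nonneg_right _ (by positivity)
  exact_mod_cast Nat.factorial_le hl.le

/-- the constant -/
def BB (W : Type) [Fintype W] [DecidableEq W] (T : ℕ) (K : ℝ) : ℝ :=
  2 ^ T * ((T.factorial : ℝ) * (Fintype.card (W → Fin (T + 1)) * (K ^ T) ^ Fintype.card W)) * Real.exp 1

lemma BB_pos (W : Type) [Fintype W] [DecidableEq W] (T : ℕ) {K : ℝ} (hK : 1 ≤ K) : 0 < BB W T K := by
  unfold BB
  have h1 : 0 < Fintype.card (W → Fin (T + 1)) := Fintype.card_pos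
  have h2 : (0 : ℝ) < (Fintype.card (W → Fin (T + 1)) : ℝ) := by exact_mod_cast h1
  positivity

/-- **the approximation** -/
lemma tay {K Λ : ℝ} (hK : 1 ≤ K) (hΛ0 : 0 ≤ Λ) (hΛ1 : 2 ^ T * Λ ≤ 1) (C' : Fin T → ℝ)
    (μ : Fin T → W → ℝ) {w : W → ℝ} (hw : ∀ v, |w v| ≤ K) (hl : ∀ j, |lam μ w j| ≤ Λ) :
    |∑ j, C' j * Real.exp (lam μ w j) - ∑ β, co C' μ β * mo w β| ≤ BB W T K * Λ * ‖co C' μ‖ := by
  rw [eval_Q]
  refine (approx C' (lam μ w) hΛ0 hΛ1 hl (fun i hi => D_le hK C' μ hw hi) (by positivity)).trans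
    (le_of_eq ?_)
  unfold BB
  ring

/-- if all the coefficients vanish, so does the function -/
lemma tay_zero (C' : Fin T → ℝ) (μ : Fin T → W → ℝ) (h : co C' μ = 0) (w : W → ℝ) :
    ∑ j, C' j * Real.exp (lam μ w j) = 0 := by
  apply exp_zero
  intro i hi
  have h1 : eval w (Ql C' μ i) = 0 := by
    rw [eval_sum (Ql C' μ i) (deg_Ql C' μ hi) w]
    refine Finset.sum_eq_zero fun β _ => ?_
    have h2 := coeff_Ql_le C' μ hi (ex β)
    have h3 : coeff (ex β) (Q C' μ) = 0 := congrFun h β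
    rw [h3, abs_zero] at h2
    rw [abs_nonpos_iff.1 h2, zero_mul]
  rw [eval_Ql, div_eq_zero_iff] at h1
  rcases h1 with h1 | h1
  · exact h1
  · exact absurd h1 (by positivity)

end

end Pool.Agent.J4.H86.FT
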