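import Pool.Agent.J4.H86.EB.Cnt
import Pool.Agent.J4.H86.FT.Pat
import Pool.Agent.J4.H86.FT.Cpt
import Pool.Agent.J4.H86.FT.Tay

/-! # Functions with few terms in blocks of ordinates -/

set_option autoImplicit false

namespace Pool.Agent.J4.H86.FT

open Finset MvPolynomial Filter Pool.Agent.J4.H86.EB

noncomputable section

/-- the function with the terms `c t * x ^ α t` -/
def few {W : Type} [Fintype W] {T : ℕ} (c : Fin T → ℝ) (α : Fin T → W → ℝ) (x : W → ℝ) : ℝ :=
  ∑ t, c t * ∏ v, x v ^ α t v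

lemma few_eq {W : Type} [Fintype W] {T : ℕ} (c : Fin T → ℝ) (α : Fin T → W → ℝ) {G h : ℝ} (hG : 0 < G)
    (hh : 0 < h) {x : W → ℝ} (hx : ∀ v, 0 < x v) :
    few c α x = ∑ t, (c t * ∏ v, G ^ α t v) * Real.exp (lam (fun t v => α t v * (h / G))
      (fun v => Real.log (x v / G) * (G / h)) t) := by
  unfold few lam
  refine Finset.sum_congr rfl fun t _ => ?_
  rw [mul_assoc, Real.exp_sum, ← Finset.prod_mul_distrib]
  congr 1
  refine Finset.prod_congr rfl fun v _ => ?_
  have e1 : α t v * (h / G) * (Real.log (x v / G) * (G / h)) = Real.log (x v / G) * α t v := by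
    field_simp
  have e2 : x v = G * (x v / G) := by field_simp
  rw [e1, ← Real.rpow_def_of_pos (div_pos (hx v) hG), ← Real.mul_rpow hG.le (div_pos (hx v) hG).le, ← e2]

/-- what is used of the sequence of the ordinates -/
structure Seq (g : ℕ → ℝ) : Prop where
  rare : Rare g
  mono : ∀ m n, 1 ≤ m → m ≤ n → g m ≤ g n
  pos : ∀ n, 1 ≤ n → 0 < g n
  top : Tendsto g atTop atTop
  size : ∃ C : ℝ, 0 < C ∧ ∀ᶠ N : ℕ in atTop, g (2 * N) * Real.log (g (2 * N)) ≤ C * N
  size2 : ∃ C : ℝ, 0 < C ∧ ∀ᶠ N : ℕ in atTop, (N : ℝ) ≤ C * (g (2 * N) * Real.log (g (2 * N)))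
  low : ∀ η : ℝ, 0 < η → ∃ c : ℝ, 0 < c ∧ ∀ᶠ N : ℕ in atTop,
    (((Finset.Icc 1 N).filter (fun n => g n < c * g (2 * N))).card : ℝ) ≤ η * N

/-- the gaps are small on average -/
lemma tele (g : ℕ → ℝ) (s N : ℕ) : ∑ n ∈ range N, (g (n + 1 + s) - g (n + 1)) =
    ∑ i ∈ range s, (g (N + 1 + i) - g (1 + i)) := by
  induction N with
  | zero =>
    rw [Finset.range_zero, Finset.sum_empty]
    symm
    refine Finset.sum_eq_zero fun i _ => ?_
    rw [zero_add, sub_self]
  | succ N ih =>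
    rw [Finset.sum_range_succ, ih]
    have h1 : ∑ i ∈ range s, (g (N + 1 + 1 + i) - g (1 + i)) =
        ∑ i ∈ range s, (g (N + 1 + i) - g (1 + i)) + ∑ i ∈ range s, (g (N + 1 + (i + 1)) - g (N + 1 + i)) := by
      rw [← Finset.sum_add_distrib]
      refine Finset.sum_congr rfl fun i _ => ?_
      have : N + 1 + (i + 1) = N + 1 + 1 + i := by ring
      rw [this]
      ring
    rw [h1, Finset.sum_range_sub (fun i => g (N + 1 + i)) s]

lemma markov {g : ℕ → ℝ} (hg : Seq g) (s N : ℕ) (hN : 1 ≤ N) (hs : s ≤ N) (K : ℝ) (hK : 0 < K) :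
    (((Finset.Icc 1 N).filter (fun n => K * (g (2 * N) / N) < g (n + s) - g n)).card : ℝ) ≤
      s / K * N := by
  classical
  have hN0 : (0 : ℝ) < N := by exact_mod_cast hN
  have hgN : 0 < g (2 * N) := hg.pos _ (by omega)
  obtain ⟨A, hA⟩ : ∃ A : Finset ℕ, A = (Finset.Icc 1 N).filter
    (fun n => K * (g (2 * N) / N) < g (n + s) - g n) := ⟨_, rfl⟩
  rw [← hA]
  have h1 : (A.card : ℝ) * (K * (g (2 * N) / N)) ≤ ∑ n ∈ Finset.Icc 1 N, (g (n + s) - g n) := by
    calc (A.card : ℝ) * (K * (g (2 * N) / N)) = ∑ _n ∈ A, K * (g (2 * N) / N) := by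
          rw [Finset.sum_const, nsmul_eq_mul]
      _ ≤ ∑ n ∈ A, (g (n + s) - g n) := by
          refine Finset.sum_le_sum fun n hn => ?_
          rw [hA, mem_filter] at hn
          exact hn.2.le
      _ ≤ _ := by
          refine Finset.sum_le_sum_of_subset_of_nonneg (by rw [hA]; exact filter_subset _ _) ?_
          intro n hn _
          rw [mem_Icc] at hn
          have := hg.mono n (n + s) hn.1 (by omega)
          linarith
  have h2 : ∑ n ∈ Finset.Icc 1 N, (g (n + s) - g n) = ∑ n ∈ range N, (g (n + 1 + s) - g (n + 1)) := by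
    rw [← Finset.sum_image (s := range N) (g := fun n => n + 1) (f := fun n => g (n + s) - g n)
      (fun a _ b _ h => Nat.succ_injective h)]
    congr 1
    ext n
    simp only [mem_Icc, mem_image, mem_range]
    constructor
    · rintro ⟨h1, h2⟩
      exact ⟨n - 1, by omega, by omega⟩
    · rintro ⟨m, h1, rfl⟩
      omega
  rw [h2, tele] at h1
  have h3 : ∑ i ∈ range s, (g (N + 1 + i) - g (1 + i)) ≤ s * g (2 * N) := by
    calc ∑ i ∈ range s, (g (N + 1 + i) - g (1 + i)) ≤ ∑ _i ∈ range s, g (2 * N) := by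
          refine Finset.sum_le_sum fun i hi => ?_
          have hi' := Finset.mem_range.1 hi
          have h4 := hg.pos (1 + i) (by omega)
          have h5 := hg.mono (N + 1 + i) (2 * N) (by omega) (by omega)
          linarith
      _ = _ := by rw [Finset.sum_const, Finset.card_range, nsmul_eq_mul]
  have h4 : (A.card : ℝ) * (K * (g (2 * N) / N)) ≤ s * g (2 * N) := h1.trans h3
  have h5 : (A.card : ℝ) * K * (g (2 * N) / N) = (A.card * K / N) * g (2 * N) := by ring
  rw [← mul_assoc, h5] at h4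
  have h6 := le_of_mul_le_mul_right h4 hgN
  rw [div_le_iff₀ hN0] at h6
  rw [div_mul_eq_mul_div, le_div_iff₀ hK]
  exact h6

end

end Pool.Agent.J4.H86.FT
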