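import Pool.Agent.J4.H86.FT.Blk

/-! # Functions with few terms on products -/

set_option autoImplicit false

namespace Pool.Agent.J4.H86.FT

open Finset

noncomputable section

lemma few_split {K T J : ℕ} (c : Fin T → ℝ) (α : Fin T → Fin (J + 1) × Fin K → ℝ)
    (x : Fin (J + 1) × Fin K → ℝ) :
    few c α x = ∑ t, c t * ((∏ i, x (0, i) ^ α t (0, i)) *
      ∏ v : Fin J × Fin K, x (v.1.succ, v.2) ^ α t (v.1.succ, v.2)) := by
  unfold few
  refine Finset.sum_congr rfl fun t _ => ?_
  rw [Fintype.prod_prod_type, Fin.prod_univ_succ, Fintype.prod_prod_type]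

lemma few_first {K T J : ℕ} (c : Fin T → ℝ) (α : Fin T → Fin (J + 1) × Fin K → ℝ)
    (x : Fin (J + 1) × Fin K → ℝ) :
    few c α x = few (fun t => c t * ∏ v : Fin J × Fin K, x (v.1.succ, v.2) ^ α t (v.1.succ, v.2))
      (fun t i => α t (0, i)) (fun i => x (0, i)) := by
  rw [few_split]
  unfold few
  exact Finset.sum_congr rfl fun t _ => by ring

lemma few_rest {K T J : ℕ} (c : Fin T → ℝ) (α : Fin T → Fin (J + 1) × Fin K → ℝ)
    (x : Fin (J + 1) × Fin K → ℝ) :
    few c α x = few (fun t => c t * ∏ i, x (0, i) ^ α t (0, i))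
      (fun t v => α t (v.1.succ, v.2)) (fun v : Fin J × Fin K => x (v.1.succ, v.2)) := by
  rw [few_split]
  unfold few
  exact Finset.sum_congr rfl fun t _ => by ring

lemma gridF {K T r : ℕ} {η M : ℝ} (hη : η ≤ 1) (pt : ℕ → Fin K → ℝ) (J : ℕ) (S : Fin J → Finset ℕ)
    (hpos : ∀ j, ∀ m ∈ S j, ∀ v, 0 < pt m v)
    (hS : ∀ j, ∀ (c : Fin T → ℝ) (α : Fin T → Fin K → ℝ), (∀ t v, |α t v| ≤ M) →
      (∃ x : Fin K → ℝ, (∀ v, 0 < x v) ∧ few c α x ≠ 0) →
      (1 - η) * r ≤ (((S j).filter (fun m => few c α (pt m) ≠ 0)).card : ℝ))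
    (c : Fin T → ℝ) (α : Fin T → Fin J × Fin K → ℝ) (hα : ∀ t v, |α t v| ≤ M)
    (hne : ∃ x : Fin J × Fin K → ℝ, (∀ v, 0 < x v) ∧ few c α x ≠ 0) :
    ((1 - η) * r) ^ J ≤ (((Fintype.piFinset S).filter (fun m : Fin J → ℕ =>
      few c α (fun v => pt (m v.1) v.2) ≠ 0)).card : ℝ) := by
  classical
  induction J generalizing c with
  | zero =>
    rw [pow_zero]
    obtain ⟨x, -, hx⟩ := hne
    have h2 : (default : Fin 0 → ℕ) ∈ (Fintype.piFinset S).filter (fun m : Fin 0 → ℕ =>
        few c α (fun v => pt (m v.1) v.2) ≠ 0) := by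
      rw [mem_filter, Fintype.mem_piFinset]
      refine ⟨fun j => j.elim0, ?_⟩
      have e : (fun v : Fin 0 × Fin K => pt ((default : Fin 0 → ℕ) v.1) v.2) = x := by
        funext v
        exact v.1.elim0
      rw [e]
      exact hx
    have : 0 < ((Fintype.piFinset S).filter (fun m : Fin 0 → ℕ =>
        few c α (fun v => pt (m v.1) v.2) ≠ 0)).card := Finset.card_pos.2 ⟨_, h2⟩
    exact_mod_cast this
  | succ J ih =>
    obtain ⟨x, hx, hx0⟩ := hne
    obtain ⟨A, hA⟩ : ∃ A : Finset ℕ, A = (S 0).filter (fun m =>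
      few (fun t => c t * ∏ v : Fin J × Fin K, x (v.1.succ, v.2) ^ α t (v.1.succ, v.2))
        (fun t i => α t (0, i)) (pt m) ≠ 0) := ⟨_, rfl⟩
    have hAc : (1 - η) * r ≤ (A.card : ℝ) := by
      rw [hA]
      refine hS 0 _ _ (fun t v => hα t (0, v)) ⟨fun i => x (0, i), fun i => hx _, ?_⟩
      rw [← few_first]
      exact hx0
    obtain ⟨B, hB⟩ : ∃ B : ℕ → Finset (Fin J → ℕ), B = fun m => (Fintype.piFinset (fun j => S j.succ)).filter
      (fun m' : Fin J → ℕ => few (fun t => c t * ∏ i, pt m i ^ α t (0, i))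
        (fun t (v : Fin J × Fin K) => α t (v.1.succ, v.2)) (fun v => pt (m' v.1) v.2) ≠ 0) := ⟨_, rfl⟩
    have hBc : ∀ m ∈ A, ((1 - η) * r) ^ J ≤ ((B m).card : ℝ) := by
      intro m hm
      rw [hA, mem_filter] at hm
      obtain ⟨hmS, hm0⟩ := hm
      rw [hB]
      refine ih (fun j => S j.succ) (fun j => hpos j.succ) (fun j => hS j.succ) _ _
        (fun t v => hα t (v.1.succ, v.2)) ⟨fun v => x (v.1.succ, v.2), fun v => hx _, ?_⟩
      -- the point with the first coordinates `pt m`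
      obtain ⟨z, hz⟩ : ∃ z : Fin (J + 1) × Fin K → ℝ, z = fun v =>
        (Fin.cons (pt m) (fun j i => x (j.succ, i)) : Fin (J + 1) → Fin K → ℝ) v.1 v.2 := ⟨_, rfl⟩
      have h1 := few_first c α z
      have h2 := few_rest c α z
      rw [h1] at h2
      rw [hz] at h2
      simp only [Fin.cons_zero, Fin.cons_succ] at h2
      rw [← h2]
      exact hm0
    have h2 : (A.sigma B).card ≤ ((Fintype.piFinset S).filter (fun m : Fin (J + 1) → ℕ =>
        few c α (fun v => pt (m v.1) v.2) ≠ 0)).card := by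
      apply Finset.card_le_card_of_injOn (fun x => (Fin.cons x.1 x.2 : Fin (J + 1) → ℕ))
      · rintro ⟨a, m⟩ hx
        rw [mem_coe, mem_sigma] at hx
        obtain ⟨ha, hm⟩ := hx
        rw [hB, mem_filter, Fintype.mem_piFinset] at hm
        rw [hA, mem_filter] at ha
        rw [mem_coe, mem_filter, Fintype.mem_piFinset]
        refine ⟨?_, ?_⟩
        · intro j
          refine Fin.cases ?_ (fun j => ?_) j
          · exact ha.1
          · exact hm.1 j
        · rw [few_rest]
          simp only [Fin.cons_zero, Fin.cons_succ]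
          exact hm.2
      · rintro ⟨a, m⟩ _ ⟨a', m'⟩ _ h
        have h0 := congrFun h 0
        simp only [Fin.cons_zero] at h0
        have h1 : m = m' := by
          funext j
          have := congrFun h j.succ
          simpa only [Fin.cons_succ] using this
        subst h1
        subst h0
        rfl
    have h00 : 0 ≤ (1 - η) * r := mul_nonneg (by linarith) (Nat.cast_nonneg _)
    have h3 : ((1 - η) * r) ^ J * ((1 - η) * r) ≤ ((A.sigma B).card : ℝ) := by
      rw [Finset.card_sigma]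
      push_cast
      calc ((1 - η) * r) ^ J * ((1 - η) * r) ≤ ((1 - η) * r) ^ J * (A.card : ℝ) :=
            mul_le_mul_of_nonneg_left hAc (pow_nonneg h00 _)
        _ = ∑ m ∈ A, ((1 - η) * (r : ℝ)) ^ J := by rw [Finset.sum_const, nsmul_eq_mul, mul_comm]
        _ ≤ _ := Finset.sum_le_sum hBc
    rw [pow_succ]
    exact h3.trans (by exact_mod_cast h2)

end

end Pool.Agent.J4.H86.FT
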