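import Pool.Agent.J4.H86.FT.Main
import Pool.Agent.J4.H86.FT.Grid

/-! # Functions with few terms: the good blocks -/

set_option autoImplicit false

namespace Pool.Agent.J4.H86.FT

open Finset Filter

noncomputable section

/-- the functions with at most `T` terms and exponents of modulus at most `M`, not identically zero on
the positive orthant -/
def FewTerms (V : Type) [Fintype V] (T : ℕ) (M : ℝ) : Set ((V → ℝ) → ℝ) :=
  {f | ∃ (c : Fin T → ℝ) (α : Fin T → V → ℝ), (∀ t v, |α t v| ≤ M) ∧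
    (f = fun x => ∑ t, c t * ∏ v, x v ^ α t v) ∧ ∃ x : V → ℝ, (∀ v, 0 < x v) ∧ f x ≠ 0}

/-- `f` has a zero near to `(g (m + b_1), ..., g (m + b_K))` -/
def Near (g : ℕ → ℝ) {K : ℕ} (f : (Fin K → ℝ) → ℝ) (b : Fin K → ℕ) (ε : ℝ) (m : ℕ) : Prop :=
  ∃ y : Fin K → ℝ, f y = 0 ∧ ∀ i, |g (m + b i) - y i| ≤ ε / Real.log (g m)

open Classical in
theorem fin {g : ℕ → ℝ} (hg : Seq g) (K T : ℕ) (σ η : ℝ) (hσ : 0 < σ) (hη : 0 < η) (hη1 : η ≤ 1) :
    ∃ δ : ℝ, 0 < δ ∧ ∃ r₀ : ℕ, ∀ r : ℕ, r₀ ≤ r → ∃ κ : ℝ, 0 < κ ∧ ∃ N₀ : ℕ, ∀ N : ℕ, N₀ ≤ N →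
    ∀ b : Fin K → ℕ, (∀ v, b v ≤ r) → (∀ v w, v ≠ w → (r : ℝ) ^ σ ≤ |(b v : ℝ) - b w|) →
    ∃ G : Finset ℕ, G ⊆ Finset.Icc 1 N ∧ (1 - η) * N ≤ G.card ∧
      (∀ n ∈ G, ∀ f ∈ FewTerms (Fin K) T (κ * N),
        (((Finset.Ico n (n + r)).filter (Near g f b (δ * Real.sqrt (Real.log r)))).card : ℝ) ≤ η * r) ∧
      ∀ (J : ℕ) (n : Fin J → ℕ), (∀ j, n j ∈ G) → ∀ f ∈ FewTerms (Fin J × Fin K) T (κ * N),
        ((1 - η) * r) ^ J ≤ (((Fintype.piFinset (fun j => Finset.Ico (n j) (n j + r))).filter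
          (fun m : Fin J → ℕ => f (fun v : Fin J × Fin K => g (m v.1 + b v.2)) ≠ 0)).card : ℝ) := by
  classical
  obtain ⟨δ, hδ, r₀, hr₀⟩ := main hg K T σ (η / 2) hσ (by positivity) (by linarith)
  refine ⟨δ, hδ, r₀, fun r hr => ?_⟩
  obtain ⟨κ, hκ, N₁, hN₁⟩ := hr₀ r hr
  obtain ⟨n0, hn0⟩ := (hg.top.eventually_ge_atTop 1).exists_forall_of_atTop
  obtain ⟨N₂, hN₂⟩ := (tendsto_natCast_atTop_atTop.eventually_ge_atTop
    ((n0 : ℝ) / (η / 2))).exists_forall_of_atTop
  refine ⟨κ, hκ, max N₁ N₂, fun N hN b hb hbb => ?_⟩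
  have hNN1 : N₁ ≤ N := (le_max_left _ _).trans hN
  have hNN2 := hN₂ N ((le_max_right _ _).trans hN)
  rw [div_le_iff₀ (by positivity)] at hNN2
  obtain ⟨Bad, hBad⟩ : ∃ Bad : ℕ → Prop, Bad = fun n => ∃ f ∈ FewTerms (Fin K) T (κ * N),
    η * r < (((Finset.Ico n (n + r)).filter (Near g f b (δ * Real.sqrt (Real.log r)))).card : ℝ) :=
    ⟨_, rfl⟩
  obtain ⟨E, hE⟩ : ∃ E : Finset ℕ, E = (Finset.Icc 1 N).filter Bad := ⟨_, rfl⟩
  have hEc : (E.card : ℝ) ≤ η / 2 * N := by
    refine hN₁ N hNN1 b hb hbb E ?_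
    intro n hn
    rw [hE, mem_filter, mem_Icc, hBad] at hn
    obtain ⟨h12, f, ⟨c, α, hα, hf, hx⟩, hP⟩ := hn
    refine ⟨h12, c, α, hα, ?_, ((Finset.Ico n (n + r)).filter
      (Near g f b (δ * Real.sqrt (Real.log r)))).image (fun m => m - n), ?_, ?_, ?_⟩
    · obtain ⟨x, hx1, hx2⟩ := hx
      refine ⟨x, hx1, ?_⟩
      rw [hf] at hx2
      exact hx2
    · intro i hi
      rw [mem_image] at hi
      obtain ⟨m, hm, rfl⟩ := hi
      rw [mem_filter, mem_Ico] at hm
      rw [mem_range]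
      omega
    · rw [Finset.card_image_of_injOn]
      · exact lt_of_le_of_lt (mul_le_mul_of_nonneg_right (by linarith) (Nat.cast_nonneg _)) hP
      · intro m hm m' hm' h
        rw [mem_coe, mem_filter, mem_Ico] at hm hm'
        simp only at h
        omega
    · intro i hi
      rw [mem_image] at hi
      obtain ⟨m, hm, rfl⟩ := hi
      rw [mem_filter, mem_Ico] at hm
      obtain ⟨⟨hm1, -⟩, y, hy1, hy2⟩ := hm
      have e : n + (m - n) = m := by omega
      refine ⟨y, ?_, fun v => ?_⟩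
      · rw [hf] at hy1
        exact hy1
      · rw [e, ← mul_div_assoc]
        exact hy2 v
  obtain ⟨G, hG⟩ : ∃ G : Finset ℕ, G = (Finset.Icc 1 N).filter (fun n => n0 ≤ n ∧ ¬ Bad n) := ⟨_, rfl⟩
  have h1 : ∀ n ∈ G, ∀ f ∈ FewTerms (Fin K) T (κ * N),
      (((Finset.Ico n (n + r)).filter (Near g f b (δ * Real.sqrt (Real.log r)))).card : ℝ) ≤ η * r := by
    intro n hn f hf
    rw [hG, mem_filter, hBad] at hn
    by_contra hcon
    push Not at hcon
    exact hn.2.2 ⟨f, hf, hcon⟩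
  refine ⟨G, by rw [hG]; exact filter_subset _ _, ?_, h1, ?_⟩
  · have h2 : Finset.Icc 1 N ⊆ (E ∪ G) ∪ Finset.range n0 := by
      intro n hn
      rw [mem_union, mem_union, hE, hG, mem_filter, mem_filter, mem_range]
      by_cases c1 : n0 ≤ n
      · by_cases c2 : Bad n
        · exact Or.inl (Or.inl ⟨hn, c2⟩)
        · exact Or.inl (Or.inr ⟨hn, c1, c2⟩)
      · exact Or.inr (not_le.1 c1)
    have h3 := (Finset.card_le_card h2).trans (Finset.card_union_le _ _)
    have h4 := Finset.card_union_le E G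
    rw [Nat.card_Icc, Nat.add_sub_cancel, Finset.card_range] at h3
    have h5 : (N : ℝ) ≤ E.card + G.card + n0 := by exact_mod_cast h3.trans (Nat.add_le_add_right h4 _)
    linarith
  · intro J n hn f hf
    obtain ⟨c, α, hα, hfd, x, hx1, hx2⟩ := hf
    have hgn : ∀ j, ∀ m ∈ Finset.Ico (n j) (n j + r), 1 ≤ g m := by
      intro j m hm
      have h6 := hn j
      rw [hG, mem_filter, mem_Icc] at h6
      exact hn0 m (h6.2.1.trans (mem_Ico.1 hm).1)
    have h2 := gridF (K := K) (T := T) (r := r) (M := κ * N) hη1 (fun m i => g (m + b i)) J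
      (fun j => Finset.Ico (n j) (n j + r)) (by
        intro j m hm v
        have h6 := hn j
        rw [hG, mem_filter, mem_Icc] at h6
        have := (mem_Ico.1 hm).1
        exact hg.pos _ (by omega)) (by
        intro j c' α' hα' hne'
        have h3 := h1 (n j) (hn j) (fun x => ∑ t, c' t * ∏ v, x v ^ α' t v) ⟨c', α', hα', rfl, hne'⟩
        have h4 := Finset.card_filter_add_card_filter_not (s := Finset.Ico (n j) (n j + r))
          (fun m => few c' α' (fun i => g (m + b i)) = 0)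
        rw [Nat.card_Ico, Nat.add_sub_cancel_left] at h4
        have h5 : ((((Finset.Ico (n j) (n j + r)).filter
            (fun m => few c' α' (fun i => g (m + b i)) = 0)).card : ℕ) : ℝ) ≤ η * r := by
          refine le_trans ?_ h3
          have : (Finset.Ico (n j) (n j + r)).filter (fun m => few c' α' (fun i => g (m + b i)) = 0) ⊆
              (Finset.Ico (n j) (n j + r)).filter (Near g (fun x => ∑ t, c' t * ∏ v, x v ^ α' t v) b
                (δ * Real.sqrt (Real.log r))) := by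
            intro m hm
            rw [mem_filter] at hm ⊢
            refine ⟨hm.1, fun i => g (m + b i), hm.2, fun i => ?_⟩
            rw [sub_self, abs_zero]
            have : 0 ≤ Real.log (g m) := Real.log_nonneg (hgn j m hm.1)
            positivity
          exact_mod_cast Finset.card_le_card this
        have h6 : ((((Finset.Ico (n j) (n j + r)).filter
            (fun m => few c' α' (fun i => g (m + b i)) = 0)).card : ℕ) : ℝ) +
            ((((Finset.Ico (n j) (n j + r)).filter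
            (fun m => ¬ few c' α' (fun i => g (m + b i)) = 0)).card : ℕ) : ℝ) = r := by
          exact_mod_cast h4
        have h7 : (1 - η) * r ≤ ((((Finset.Ico (n j) (n j + r)).filter
            (fun m => ¬ few c' α' (fun i => g (m + b i)) = 0)).card : ℕ) : ℝ) := by linarith
        exact h7) c α hα ⟨x, hx1, by rw [hfd] at hx2; exact hx2⟩
    rw [hfd]
    exact h2

end

end Pool.Agent.J4.H86.FT
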