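import Pool.Agent.J4.H86.FT.Blk

/-! # Functions with few terms in blocks of ordinates: the main theorem -/

set_option autoImplicit false

namespace Pool.Agent.J4.H86.FT

open Finset MvPolynomial Filter Pool.Agent.J4.H86.EB

noncomputable section

lemma log_bounds {u : ℝ} (hu : |u| ≤ 1 / 2) : |Real.log (1 + u) - u| ≤ 2 * u ^ 2 := by
  have hu' := abs_le.1 hu
  have h1 : 0 < 1 + u := by linarith [hu'.1]
  have h2 := Real.log_le_sub_one_of_pos h1
  have h3 := Real.one_sub_inv_le_log_of_pos h1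
  have h4 : 1 - (1 + u)⁻¹ = u / (1 + u) := by field_simp; ring
  have h5 : u - 2 * u ^ 2 ≤ u / (1 + u) := by
    rw [le_div_iff₀ h1]
    nlinarith [mul_nonneg (sq_nonneg u) (by linarith [hu'.1] : 0 ≤ 1 + 2 * u)]
  rw [abs_le]
  constructor
  · rw [h4] at h3
    linarith
  · have := sq_nonneg u
    linarith

/-- one block: a function with few terms which vanishes near the points of a pattern gives a near zero
of the determinant -/
lemma point {K T : ℕ} {G K2 ρ τ : ℝ} (hG : 0 < G) (hK2 : 1 ≤ K2)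
    (hdet : ∀ (a : (Fin K → Fin (T + 1)) → ℝ), a ≠ 0 → ∀ w : (Fin K → Fin (T + 1)) × Fin K → ℝ,
      (∀ v, |w v| ≤ 2 * K2) → (∀ j, |∑ β, a β * mo (fun i => w (j, i)) β| ≤ τ * ‖a‖) →
      ∃ w' : (Fin K → Fin (T + 1)) × Fin K → ℝ, (∀ v, |w' v - w v| ≤ ρ) ∧ eval w' (Dl (Fin K) T) = 0)
    {Λ : ℝ} (hΛ0 : 0 ≤ Λ) (hΛ1 : 2 ^ T * Λ ≤ 1) (hΛ2 : BB (Fin K) T (2 * K2) * Λ ≤ τ)
    {h : ℝ} (hh : 0 < h) (hsm : 2 * (h * K2 ^ 2) ≤ ρ * G) (hsm2 : 2 * (K2 * h) ≤ G)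
    (y : (Fin K → Fin (T + 1)) → Fin K → ℝ) (hy : ∀ j v, |y j v - G| ≤ K2 * h)
    (c : Fin T → ℝ) (α : Fin T → Fin K → ℝ) (hα : ∀ t, (∑ v, |α t v|) * (2 * K2 * h) ≤ Λ * G)
    (hne : ∃ x : Fin K → ℝ, (∀ v, 0 < x v) ∧ few c α x ≠ 0)
    (h0 : ∀ j, few c α (y j) = 0) :
    ∃ w : (Fin K → Fin (T + 1)) × Fin K → ℝ, eval w (Dl (Fin K) T) = 0 ∧
      ∀ v, |y v.1 v.2 - (G + h * w v)| ≤ 2 * ρ * h := by
  have hK20 : 0 < K2 := by linarith
  obtain ⟨μ, hμ⟩ : ∃ μ : Fin T → Fin K → ℝ, μ = fun t v => α t v * (h / G) := ⟨_, rfl⟩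
  obtain ⟨C', hC'⟩ : ∃ C' : Fin T → ℝ, C' = fun t => c t * ∏ v, G ^ α t v := ⟨_, rfl⟩
  have hfew : ∀ x : Fin K → ℝ, (∀ v, 0 < x v) → few c α x =
      ∑ t, C' t * Real.exp (lam μ (fun v => Real.log (x v / G) * (G / h)) t) := by
    intro x hx
    rw [few_eq c α hG hh hx, hC', hμ]
  have hco : co C' μ ≠ 0 := by
    intro hz
    obtain ⟨x, hx, hx0⟩ := hne
    apply hx0
    rw [hfew x hx]
    exact tay_zero C' μ hz _
  -- the points
  obtain ⟨w, hw⟩ : ∃ w : (Fin K → Fin (T + 1)) × Fin K → ℝ,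
      w = fun v => Real.log (y v.1 v.2 / G) * (G / h) := ⟨_, rfl⟩
  have hypos : ∀ j v, 0 < y j v := by
    intro j v
    have := abs_le.1 (hy j v)
    have h1 : 0 < K2 * h := by positivity
    linarith [this.1]
  have hu : ∀ v : (Fin K → Fin (T + 1)) × Fin K, |w v| ≤ 2 * K2 ∧ |w v - (y v.1 v.2 - G) / h| ≤ ρ := by
    intro v
    obtain ⟨d, hd⟩ : ∃ d : ℝ, d = y v.1 v.2 - G := ⟨_, rfl⟩
    have hd1 : |d| ≤ K2 * h := by rw [hd]; exact hy v.1 v.2
    have e1 : y v.1 v.2 / G = 1 + d / G := by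
      rw [hd]
      field_simp
      ring
    have hwv : w v = Real.log (1 + d / G) * (G / h) := by
      rw [hw]
      simp only
      rw [e1]
    have hGh : 0 < G / h := by positivity
    have hdG : |d / G| ≤ 1 / 2 := by
      rw [abs_div, abs_of_pos hG, div_le_iff₀ hG]
      linarith
    have b := log_bounds hdG
    have hsq : |d| ^ 2 ≤ (K2 * h) ^ 2 := pow_le_pow_left₀ (abs_nonneg _) hd1 2
    have e2 : w v - d / h = (Real.log (1 + d / G) - d / G) * (G / h) := by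
      rw [hwv]
      field_simp
    have b1 : |w v - d / h| ≤ 2 * |d| ^ 2 / (G * h) := by
      rw [e2, abs_mul, abs_of_pos hGh]
      calc |Real.log (1 + d / G) - d / G| * (G / h) ≤ 2 * (d / G) ^ 2 * (G / h) :=
            mul_le_mul_of_nonneg_right b hGh.le
        _ = 2 * |d| ^ 2 / (G * h) := by
            rw [sq_abs]
            field_simp
    have b2 : 2 * |d| ^ 2 / (G * h) ≤ |d| / h := by
      rw [div_le_div_iff₀ (by positivity) hh]
      calc 2 * |d| ^ 2 * h = (2 * |d|) * (|d| * h) := by ring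
        _ ≤ G * (|d| * h) := mul_le_mul_of_nonneg_right (by linarith) (by positivity)
        _ = |d| * (G * h) := by ring
    have b3 : |d| / h ≤ K2 := by rw [div_le_iff₀ hh]; exact hd1
    rw [← hd]
    refine ⟨?_, b1.trans ?_⟩
    · have b4 : |w v| ≤ |w v - d / h| + |d / h| := by
        have := abs_add_le (w v - d / h) (d / h)
        rwa [sub_add_cancel] at this
      rw [abs_div, abs_of_pos hh] at b4
      linarith
    · rw [div_le_iff₀ (by positivity)]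
      calc 2 * |d| ^ 2 ≤ 2 * (K2 * h) ^ 2 := by linarith
        _ = (2 * (h * K2 ^ 2)) * h := by ring
        _ ≤ (ρ * G) * h := mul_le_mul_of_nonneg_right hsm hh.le
        _ = ρ * (G * h) := by ring
  have hlam : ∀ j t, |lam μ (fun i => w (j, i)) t| ≤ Λ := by
    intro j t
    unfold lam
    refine (Finset.abs_sum_le_sum_abs _ _).trans ?_
    have h1 : ∑ v, |μ t v * w (j, v)| ≤ ∑ v, |α t v| * (h / G) * (2 * K2) := by
      refine Finset.sum_le_sum fun v _ => ?_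
      rw [abs_mul, hμ]
      simp only
      rw [abs_mul, abs_of_pos (div_pos hh hG)]
      exact mul_le_mul_of_nonneg_left (hu _).1 (by positivity)
    refine h1.trans ?_
    rw [← Finset.sum_mul, ← Finset.sum_mul]
    have h2 := hα t
    have e3 : (∑ v, |α t v|) * (h / G) * (2 * K2) = ((∑ v, |α t v|) * (2 * K2 * h)) / G := by ring
    rw [e3, div_le_iff₀ hG]
    exact h2
  have hval : ∀ j, |∑ β, co C' μ β * mo (fun i => w (j, i)) β| ≤ τ * ‖co C' μ‖ := by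
    intro j
    have h1 := tay (by linarith : 1 ≤ 2 * K2) hΛ0 hΛ1 C' μ (w := fun i => w (j, i))
      (fun v => (hu (j, v)).1) (hlam j)
    have h2 := hfew (y j) (fun v => hypos j v)
    rw [h0 j] at h2
    have h3 : ∑ t, C' t * Real.exp (lam μ (fun i => w (j, i)) t) = 0 := by
      rw [hw]
      exact h2.symm
    rw [h3, zero_sub, abs_neg] at h1
    exact h1.trans (mul_le_mul_of_nonneg_right hΛ2 (norm_nonneg _))
  obtain ⟨w', hw', hz⟩ := hdet (co C' μ) hco w (fun v => (hu v).1) hval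
  refine ⟨w', hz, fun v => ?_⟩
  have b2 := abs_le.1 (hu v).2
  have h1 := abs_le.1 (hw' v)
  have e4 : y v.1 v.2 - (G + h * w' v) = h * ((y v.1 v.2 - G) / h - w' v) := by
    field_simp
    ring
  rw [e4, abs_mul, abs_of_pos hh, mul_comm]
  apply mul_le_mul_of_nonneg_right _ hh.le
  rw [abs_le]
  constructor <;> linarith [h1.1, h1.2, b2.1, b2.2]

/-- **functions with few terms in blocks** -/
theorem main {g : ℕ → ℝ} (hg : Seq g) (K T : ℕ) (σ η : ℝ) (hσ : 0 < σ) (hη : 0 < η) (hη1 : η ≤ 1) :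
    ∃ δ : ℝ, 0 < δ ∧ ∃ r₀ : ℕ, ∀ r : ℕ, r₀ ≤ r → ∃ κ : ℝ, 0 < κ ∧ ∃ N₀ : ℕ, ∀ N : ℕ, N₀ ≤ N →
    ∀ b : Fin K → ℕ, (∀ v, b v ≤ r) → (∀ v w, v ≠ w → (r : ℝ) ^ σ ≤ |(b v : ℝ) - b w|) → ∀ E : Finset ℕ,
    (∀ n ∈ E, (1 ≤ n ∧ n ≤ N) ∧ ∃ (c : Fin T → ℝ) (α : Fin T → Fin K → ℝ), (∀ t v, |α t v| ≤ κ * N) ∧
      (∃ x : Fin K → ℝ, (∀ v, 0 < x v) ∧ few c α x ≠ 0) ∧
      ∃ S : Finset ℕ, S ⊆ Finset.range r ∧ η * r < S.card ∧
        ∀ i ∈ S, ∃ y : Fin K → ℝ, few c α y = 0 ∧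
          ∀ v, |g (n + i + b v) - y v| ≤ δ * (Real.sqrt (Real.log r) / Real.log (g (n + i)))) →
    (E.card : ℝ) ≤ η * N := by
  classical
  let I := Fin K → Fin (T + 1)
  let V := I × Fin K
  let j0 : I := fun _ => 0
  obtain ⟨D, hD⟩ : ∃ D : ℕ, D = Fintype.card I := ⟨_, rfl⟩
  have hD1 : 1 ≤ D := by rw [hD]; exact Fintype.card_pos_iff.2 ⟨j0⟩
  obtain ⟨σ', hσ'⟩ : ∃ σ' : ℝ, σ' = min σ (1 / 2) := ⟨_, rfl⟩
  have hσ'0 : 0 < σ' := by rw [hσ']; exact lt_min hσ (by norm_num)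
  have hσ'σ : σ' ≤ σ := by rw [hσ']; exact min_le_left _ _
  have hσ'h : σ' ≤ 1 / 2 := by rw [hσ']; exact min_le_right _ _
  obtain ⟨θ, hθ⟩ : ∃ θ : ℝ, θ = η / 2 := ⟨_, rfl⟩
  have hθ0 : 0 < θ := by rw [hθ]; positivity
  have hθ1 : θ ≤ 1 := by rw [hθ]; linarith
  obtain ⟨η', hη'⟩ : ∃ η' : ℝ, η' = η * θ ^ D / 8 := ⟨_, rfl⟩
  have hη'0 : 0 < η' := by rw [hη']; positivity
  obtain ⟨δ0, hδ0, hpat⟩ := pat g hg.rare V (Dl (Fin K) T) (Dl_ne (Fin K) T) σ' η' hσ'0 hη'0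
  obtain ⟨Q0, hQ0⟩ : ∃ Q0 : ℝ, Q0 = ((D * K : ℕ) : ℝ) ^ 2 := ⟨_, rfl⟩
  have hQ00 : 0 ≤ Q0 := by rw [hQ0]; positivity
  have hev3 : ∀ᶠ r : ℕ in atTop, Q0 * (2 * (r : ℝ) ^ σ' + 1) ≤ θ ^ D / 2 * r ∧
      (r : ℝ) ^ σ' + 1 ≤ η / 2 * r := by
    have h1 : Tendsto (fun r : ℕ => Real.sqrt r) atTop atTop :=
      Real.tendsto_sqrt_atTop.comp tendsto_natCast_atTop_atTop
    filter_upwards [h1.eventually_ge_atTop (6 * Q0 / θ ^ D), h1.eventually_ge_atTop (4 / η),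
      eventually_ge_atTop 1] with r hr hr' hr1
    have hr1' : (1 : ℝ) ≤ r := by exact_mod_cast hr1
    have h2 : (r : ℝ) ^ σ' ≤ Real.sqrt r := by
      rw [Real.sqrt_eq_rpow]
      exact Real.rpow_le_rpow_of_exponent_le hr1' hσ'h
    have h3 : 1 ≤ Real.sqrt r := Real.one_le_sqrt.2 hr1'
    have h4 : Real.sqrt r * Real.sqrt r = r := Real.mul_self_sqrt (by linarith)
    rw [div_le_iff₀ (by positivity)] at hr hr'
    constructor
    · calc Q0 * (2 * (r : ℝ) ^ σ' + 1) ≤ Q0 * (2 * Real.sqrt r + Real.sqrt r) := by gcongr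
        _ = (6 * Q0) / 2 * Real.sqrt r := by ring
        _ ≤ (Real.sqrt r * θ ^ D) / 2 * Real.sqrt r := by gcongr
        _ = θ ^ D / 2 * (Real.sqrt r * Real.sqrt r) := by ring
        _ = _ := by rw [h4]
    · calc (r : ℝ) ^ σ' + 1 ≤ Real.sqrt r + Real.sqrt r := by linarith
        _ = 4 / 2 * Real.sqrt r := by ring
        _ ≤ (Real.sqrt r * η) / 2 * Real.sqrt r := by gcongr
        _ = η / 2 * (Real.sqrt r * Real.sqrt r) := by ring
        _ = _ := by rw [h4]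
  obtain ⟨r₀, hr₀⟩ := ((hpat.and hev3).and (eventually_ge_atTop 3)).exists_forall_of_atTop
  refine ⟨δ0 / 2, by positivity, r₀, fun r hr => ?_⟩
  obtain ⟨⟨hrp, hr3, hr4⟩, hr2⟩ := hr₀ r hr
  have hr2' : (3 : ℝ) ≤ r := by exact_mod_cast hr2
  have hr0 : (0 : ℝ) < r := by linarith
  obtain ⟨q, hq⟩ : ∃ q : ℝ, q = Real.sqrt (Real.log r) := ⟨_, rfl⟩
  have hq1 : 1 ≤ q := by
    rw [hq, Real.one_le_sqrt, Real.le_log_iff_exp_le hr0]
    have := Real.exp_one_lt_d9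
    linarith
  have hq0 : 0 < q := by linarith
  -- the constants
  obtain ⟨C, hC, hsize⟩ := hg.size
  obtain ⟨C2, hC2, hsize2⟩ := hg.size2
  obtain ⟨c0, hc0, hlow⟩ := hg.low (η / 8) (by positivity)
  obtain ⟨K1, hK1⟩ : ∃ K1 : ℝ, K1 = 16 * r / η := ⟨_, rfl⟩
  have hK11 : 1 ≤ K1 := by
    rw [hK1, le_div_iff₀ hη]
    linarith
  have hK10 : 0 < K1 := by linarith
  obtain ⟨K2, hK2⟩ : ∃ K2 : ℝ, K2 = K1 + δ0 / 2 * q * (2 * C2) := ⟨_, rfl⟩
  have hK21 : 1 ≤ K2 := by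
    have : 0 ≤ δ0 / 2 * q * (2 * C2) := by positivity
    rw [hK2]
    linarith
  have hK20 : 0 < K2 := by linarith
  obtain ⟨ρ, hρ⟩ : ∃ ρ : ℝ, ρ = δ0 / (4 * C) := ⟨_, rfl⟩
  have hρ0 : 0 < ρ := by rw [hρ]; positivity
  obtain ⟨τ, hτ, hdet⟩ := near_det (Fin K) T (2 * K2) ρ (by positivity) hρ0
  have hBB : 0 < BB (Fin K) T (2 * K2) := BB_pos _ _ (by linarith)
  obtain ⟨Λ, hΛ⟩ : ∃ Λ : ℝ, Λ = min (1 / 2 ^ T) (τ / BB (Fin K) T (2 * K2)) := ⟨_, rfl⟩
  have hΛ0 : 0 < Λ := by rw [hΛ]; exact lt_min (by positivity) (by positivity)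
  have hΛ1 : 2 ^ T * Λ ≤ 1 := by
    have : Λ ≤ 1 / 2 ^ T := by rw [hΛ]; exact min_le_left _ _
    rw [le_div_iff₀ (by positivity)] at this
    linarith
  have hΛ2 : BB (Fin K) T (2 * K2) * Λ ≤ τ := by
    have : Λ ≤ τ / BB (Fin K) T (2 * K2) := by rw [hΛ]; exact min_le_right _ _
    rw [le_div_iff₀ hBB] at this
    linarith
  obtain ⟨κ, hκ⟩ : ∃ κ : ℝ, κ = Λ * c0 / ((K + 1) * (2 * K2)) := ⟨_, rfl⟩
  have hκ0 : 0 < κ := by rw [hκ]; positivity
  refine ⟨κ, hκ0, ?_⟩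
  have hev : ∀ᶠ N : ℕ in atTop, 2 * r ≤ N ∧ (2 * r : ℝ) * Real.log (2 * r) ≤ Real.log N ∧
      2 * K2 ^ 2 / (c0 * ρ) ≤ N ∧ 2 * K2 / c0 ≤ N ∧ 2 ≤ c0 * g (2 * N) ∧
      1 ≤ c0 ^ 2 * g (2 * N) ∧ 1 ≤ g (2 * N) := by
    have t1 : Tendsto (fun N : ℕ => g (2 * N)) atTop atTop :=
      hg.top.comp (tendsto_id.const_mul_atTop' (by norm_num : 0 < 2))
    have t2 : Tendsto (fun N : ℕ => Real.log (N : ℝ)) atTop atTop :=
      Real.tendsto_log_atTop.comp tendsto_natCast_atTop_atTop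
    filter_upwards [eventually_ge_atTop (2 * r), t2.eventually_ge_atTop ((2 * r : ℝ) * Real.log (2 * r)),
      tendsto_natCast_atTop_atTop.eventually_ge_atTop (2 * K2 ^ 2 / (c0 * ρ)),
      tendsto_natCast_atTop_atTop.eventually_ge_atTop (2 * K2 / c0),
      t1.eventually_ge_atTop (2 / c0), t1.eventually_ge_atTop (1 / c0 ^ 2),
      t1.eventually_ge_atTop 1] with N a1 a2 a3 a4 a5 a6 a7
    refine ⟨a1, a2, a3, a4, ?_, ?_, a7⟩
    · rw [div_le_iff₀ hc0] at a5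
      linarith
    · rw [div_le_iff₀ (by positivity)] at a6
      linarith
  obtain ⟨N₀, hN₀⟩ := (((hsize.and hsize2).and hlow).and hev).exists_forall_of_atTop
  refine ⟨N₀, fun N hN b hb hbb E hE => ?_⟩
  obtain ⟨⟨⟨hNs, hNs2⟩, hNl⟩, hN2r, hNlog, hNK, hNK', hgN1, hgN2, hgN3⟩ := hN₀ N hN
  have hN1 : 1 ≤ N := by omega
  have hN0 : (0 : ℝ) < N := by exact_mod_cast hN1
  have hG2 : 0 < g (2 * N) := hg.pos _ (by omega)
  obtain ⟨h, hh⟩ : ∃ h : ℝ, h = g (2 * N) / N := ⟨_, rfl⟩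
  have hh0 : 0 < h := by rw [hh]; positivity
  choose! hE1 c α hα hne S hS1 hS2 hS3 using hE
  -- the three parts
  obtain ⟨E1, hE1'⟩ : ∃ E1 : Finset ℕ, E1 = (Finset.Icc 1 N).filter (fun n => g n < c0 * g (2 * N)) :=
    ⟨_, rfl⟩
  obtain ⟨E2, hE2'⟩ : ∃ E2 : Finset ℕ, E2 = (Finset.Icc 1 N).filter
    (fun n => K1 * (g (2 * N) / N) < g (n + 2 * r) - g n) := ⟨_, rfl⟩
  obtain ⟨E3, hE3'⟩ : ∃ E3 : Finset ℕ, E3 = E.filter (fun n => c0 * g (2 * N) ≤ g n ∧
    g (n + 2 * r) - g n ≤ K1 * h) := ⟨_, rfl⟩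
  have c1 : (E1.card : ℝ) ≤ η / 8 * N := by rw [hE1']; exact hNl
  have c2 : (E2.card : ℝ) ≤ η / 8 * N := by
    rw [hE2']
    refine (markov hg (2 * r) N hN1 hN2r K1 hK10).trans (le_of_eq ?_)
    rw [hK1]
    push_cast
    field_simp
    norm_num
  have hcov : E ⊆ E1 ∪ E2 ∪ E3 := by
    intro n hn
    have hn1 := hE1 n hn
    rw [mem_union, mem_union, hE1', hE2', hE3', mem_filter, mem_filter, mem_filter, mem_Icc]
    by_cases q1 : g n < c0 * g (2 * N)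
    · exact Or.inl (Or.inl ⟨hn1, q1⟩)
    · by_cases q2 : K1 * (g (2 * N) / N) < g (n + 2 * r) - g n
      · exact Or.inl (Or.inr ⟨hn1, q2⟩)
      · refine Or.inr ⟨hn, not_lt.1 q1, ?_⟩
        rw [hh]
        exact not_lt.1 q2
  -- the third part
  have hρr0 : 0 ≤ (r : ℝ) ^ σ' := by positivity
  have hρσ : (r : ℝ) ^ σ' ≤ (r : ℝ) ^ σ := Real.rpow_le_rpow_of_exponent_le (by linarith) hσ'σ
  obtain ⟨S', hS'⟩ : ∃ S' : ℕ → Finset ℕ, S' = fun n => (S n).filter (fun i : ℕ => (r : ℝ) ^ σ' ≤ (i : ℝ)) := ⟨_, rfl⟩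
  have hS'mem : ∀ n i, i ∈ S' n ↔ i ∈ S n ∧ (r : ℝ) ^ σ' ≤ i := by
    intro n i
    rw [hS', mem_filter]
  have hS'c : ∀ n ∈ E, θ * r ≤ ((S' n).card : ℝ) := by
    intro n hn
    have h1 : S n ⊆ S' n ∪ Finset.range (⌈(r : ℝ) ^ σ'⌉₊) := by
      intro i hi
      rw [mem_union, hS'mem, mem_range]
      by_cases q : (r : ℝ) ^ σ' ≤ i
      · exact Or.inl ⟨hi, q⟩
      · exact Or.inr (Nat.lt_ceil.2 (not_le.1 q))
    have h2 := (Finset.card_le_card h1).trans (Finset.card_union_le _ _)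
    rw [Finset.card_range] at h2
    have h3 : ((S n).card : ℝ) ≤ (S' n).card + (⌈(r : ℝ) ^ σ'⌉₊ : ℝ) := by exact_mod_cast h2
    have h4 := (Nat.ceil_lt_add_one hρr0).le
    have h5 := hS2 n hn
    rw [hθ]
    linarith
  obtain ⟨Tt, hTt⟩ : ∃ Tt : Finset (I → ℕ), Tt = Fintype.piFinset (fun _ : I => Finset.range r) := ⟨_, rfl⟩
  have hTc : (Tt.card : ℝ) = (r : ℝ) ^ D := by
    rw [hTt, Fintype.card_piFinset, Finset.prod_const, Finset.card_univ, Finset.card_range, hD]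
    push_cast
    rfl
  obtain ⟨G, hG⟩ : ∃ G : Finset (I → ℕ), G = Tt.filter (fun p => Sep b ((r : ℝ) ^ σ') p ∧
    ∀ j, (r : ℝ) ^ σ' ≤ p j) := ⟨_, rfl⟩
  obtain ⟨R, hR⟩ : ∃ R : ℕ → (I → ℕ) → Prop, R = fun n p => ∀ j, p j ∈ S' n := ⟨_, rfl⟩
  have hRn : ∀ n p, R n p ↔ ∀ j, p j ∈ S' n := by
    intro n p
    rw [hR]
  have hlow : ∀ n ∈ E3, (θ * r) ^ D / 2 ≤ ((G.filter (R n)).card : ℝ) := by
    intro n hn
    rw [hE3', mem_filter] at hn
    have hS'r : S' n ⊆ Finset.range r := fun i hi => hS1 n hn.1 ((hS'mem n i).1 hi).1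
    have h1 := many (I := I) b ((r : ℝ) ^ σ') hρr0 (fun i i' h => hρσ.trans (hbb i i' h)) r (S' n) hS'r
    have h2 : (Fintype.piFinset (fun _ : I => S' n)).filter (Sep b ((r : ℝ) ^ σ')) ⊆ G.filter (R n) := by
      intro p hp
      rw [mem_filter, Fintype.mem_piFinset] at hp
      rw [hG, hTt, mem_filter, mem_filter, Fintype.mem_piFinset, hRn]
      exact ⟨⟨fun j => hS'r (hp.1 j), hp.2, fun j => ((hS'mem n _).1 (hp.1 j)).2⟩, fun j => hp.1 j⟩
    have h3 : (((Fintype.piFinset (fun _ : I => S' n)).filter (Sep b ((r : ℝ) ^ σ'))).card : ℝ) ≤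
        ((G.filter (R n)).card : ℝ) := by exact_mod_cast Finset.card_le_card h2
    rw [← hD, ← hQ0] at h1
    have h4 : (θ * r) ^ D ≤ ((S' n).card : ℝ) ^ D :=
      pow_le_pow_left₀ (by positivity) (hS'c n hn.1) _
    have h5 : Q0 * ((r : ℝ) ^ (D - 1) * (2 * (r : ℝ) ^ σ' + 1)) ≤ (θ * r) ^ D / 2 := by
      have e : (r : ℝ) ^ D = (r : ℝ) ^ (D - 1) * r := by
        rw [← pow_succ, Nat.sub_add_cancel hD1]
      calc Q0 * ((r : ℝ) ^ (D - 1) * (2 * (r : ℝ) ^ σ' + 1))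
          = (r : ℝ) ^ (D - 1) * (Q0 * (2 * (r : ℝ) ^ σ' + 1)) := by ring
        _ ≤ (r : ℝ) ^ (D - 1) * (θ ^ D / 2 * r) := by gcongr
        _ = θ ^ D * ((r : ℝ) ^ (D - 1) * r) / 2 := by ring
        _ = _ := by rw [← e, mul_pow]
    linarith
  have hup : ∀ p ∈ G, ((E3.filter (fun n => R n p)).card : ℝ) ≤ η' * N := by
    intro p hp
    rw [hG, hTt, mem_filter, Fintype.mem_piFinset] at hp
    obtain ⟨hp1, hp2, hp3⟩ := hp
    have hpr : ∀ j, p j < r := fun j => Finset.mem_range.1 (hp1 j)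
    refine hrp N hN1 hNlog (fun v : V => p v.1 + b v.2) (fun v => by
        have h1 := hpr v.1
        have h2 := hb v.2
        show p v.1 + b v.2 ≤ 2 * r
        omega) (fun v => by
        have h1 := hp3 v.1
        push_cast
        have : (0 : ℝ) ≤ b v.2 := Nat.cast_nonneg _
        linarith) (fun v w hvw => hp2 v w hvw) h hh0 _ ?_
    intro n hn
    rw [mem_filter, hRn] at hn
    obtain ⟨hnE3, hnR⟩ := hn
    rw [hE3', mem_filter] at hnE3
    obtain ⟨hnE, hnl, hng⟩ := hnE3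
    obtain ⟨hn1, hn2⟩ := hE1 n hnE
    have hgn1 : 2 ≤ g n := hgN1.trans hnl
    have hgn0 : 0 < g n := by linarith
    refine ⟨hn1, hn2, by linarith, ?_⟩
    have hhN : h / g n ≤ 1 / (c0 * N) := by
      rw [hh, div_div, div_le_div_iff₀ (by positivity) (by positivity)]
      calc g (2 * N) * (c0 * N) = (c0 * g (2 * N)) * N := by ring
        _ ≤ g n * N := mul_le_mul_of_nonneg_right hnl hN0.le
        _ = 1 * (N * g n) := by ring
    have hhN' : h * (c0 * N) ≤ g n := by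
      rw [div_le_div_iff₀ hgn0 (by positivity)] at hhN
      linarith
    have hgn2 : g n ≤ g (2 * N) := hg.mono n (2 * N) hn1 (by omega)
    have hl : 0 < Real.log (g n) := Real.log_pos (by linarith)
    have hl2 : Real.log (g n) ≤ Real.log (g (2 * N)) := Real.log_le_log hgn0 hgn2
    have h6 : h * Real.log (g n) ≤ C := by
      calc h * Real.log (g n) ≤ h * Real.log (g (2 * N)) := mul_le_mul_of_nonneg_left hl2 hh0.le
        _ = (g (2 * N) * Real.log (g (2 * N))) / N := by rw [hh]; ring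
        _ ≤ C := by rw [div_le_iff₀ hN0]; exact hNs
    -- a lower bound for `h log (g n)`
    have hl3 : Real.log (g (2 * N)) ≤ 2 * Real.log (g n) := by
      have e : 2 * Real.log (g n) = Real.log (g n ^ 2) := by rw [Real.log_pow]; push_cast; ring
      rw [e]
      apply Real.log_le_log hG2
      calc g (2 * N) ≤ (c0 ^ 2 * g (2 * N)) * g (2 * N) := le_mul_of_one_le_left hG2.le hgN2
        _ = (c0 * g (2 * N)) ^ 2 := by ring
        _ ≤ g n ^ 2 := pow_le_pow_left₀ (by positivity) hnl 2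
    have h7 : 1 ≤ (2 * C2) * (h * Real.log (g n)) := by
      have h8 : (N : ℝ) ≤ C2 * (g (2 * N) * (2 * Real.log (g n))) :=
        hNs2.trans (mul_le_mul_of_nonneg_left (mul_le_mul_of_nonneg_left hl3 hG2.le) hC2.le)
      have e : (2 * C2) * (h * Real.log (g n)) = (C2 * (g (2 * N) * (2 * Real.log (g n)))) / N := by
        rw [hh]
        ring
      rw [e, le_div_iff₀ hN0, one_mul]
      exact h8
    have hεn : δ0 / 2 * (q / Real.log (g n)) ≤ (δ0 / 2 * q * (2 * C2)) * h := by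
      rw [mul_div_assoc', div_le_iff₀ hl]
      have h9 : δ0 / 2 * q * 1 ≤ δ0 / 2 * q * ((2 * C2) * (h * Real.log (g n))) :=
        mul_le_mul_of_nonneg_left h7 (by positivity)
      linarith
    have hYp : ∀ j, ∃ y : Fin K → ℝ, few (c n) (α n) y = 0 ∧
        ∀ v, |g (n + (p j + b v)) - y v| ≤ δ0 / 2 * (q / Real.log (g n)) := by
      intro j
      obtain ⟨y, hy1, hy2⟩ := hS3 n hnE (p j) ((hS'mem n _).1 (hnR j)).1
      refine ⟨y, hy1, fun v => ?_⟩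
      have h1 := hy2 v
      rw [add_assoc, ← hq] at h1
      refine h1.trans ?_
      apply mul_le_mul_of_nonneg_left _ (by positivity)
      apply div_le_div_of_nonneg_left hq0.le hl
      exact Real.log_le_log hgn0 (hg.mono n (n + p j) hn1 (by omega))
    choose Y hY1 hY2 using hYp
    obtain ⟨w, hw1, hw2⟩ := point hgn0 hK21 hdet hΛ0.le hΛ1 hΛ2 hh0 (by
        -- `2 * (h * K2 ^ 2) ≤ ρ * g n`
        rw [div_le_iff₀ (by positivity)] at hNK
        calc 2 * (h * K2 ^ 2) = h * (2 * K2 ^ 2) := by ring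
          _ ≤ h * (N * (c0 * ρ)) := mul_le_mul_of_nonneg_left hNK hh0.le
          _ = ρ * (h * (c0 * N)) := by ring
          _ ≤ ρ * g n := mul_le_mul_of_nonneg_left hhN' hρ0.le) (by
        rw [div_le_iff₀ hc0] at hNK'
        calc 2 * (K2 * h) = h * (2 * K2) := by ring
          _ ≤ h * (N * c0) := mul_le_mul_of_nonneg_left hNK' hh0.le
          _ = h * (c0 * N) := by ring
          _ ≤ g n := hhN')
      Y (fun j v => by
        have h1 := hpr j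
        have h2 := hb v
        have h3 := hg.mono (n + (p j + b v)) (n + 2 * r) (by omega) (by omega)
        have h4 := hg.mono n (n + (p j + b v)) (by omega) (by omega)
        have h5 := abs_le.1 (hY2 j v)
        have e : K2 * h = K1 * h + (δ0 / 2 * q * (2 * C2)) * h := by rw [hK2]; ring
        have h0 : 0 ≤ K1 * h := by positivity
        rw [e, abs_le]
        constructor <;> linarith [h5.1, h5.2]) (c n) (α n) (fun t => by
        have h1 : ∑ v, |α n t v| ≤ K * (κ * N) := by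
          calc ∑ v, |α n t v| ≤ ∑ _v : Fin K, κ * N := Finset.sum_le_sum fun v _ => hα n hnE t v
            _ = _ := by rw [Finset.sum_const, Finset.card_univ, Fintype.card_fin, nsmul_eq_mul]
        have h2 : (K : ℝ) * (κ * N) ≤ (K + 1) * (κ * N) :=
          mul_le_mul_of_nonneg_right (by linarith) (by positivity)
        calc (∑ v, |α n t v|) * (2 * K2 * h) ≤ ((K + 1) * (κ * N)) * (2 * K2 * h) :=
              mul_le_mul_of_nonneg_right (h1.trans h2) (by positivity)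
          _ = Λ * (h * (c0 * N)) := by
              rw [hκ]
              field_simp
          _ ≤ Λ * g n := mul_le_mul_of_nonneg_left hhN' hΛ0.le) (hne n hnE) hY1
    refine ⟨w, hw1, fun v => ?_⟩
    have h9 : 2 * ρ * h ≤ δ0 / 2 * (q / Real.log (g n)) := by
      rw [mul_div_assoc', le_div_iff₀ hl]
      calc 2 * ρ * h * Real.log (g n) = 2 * ρ * (h * Real.log (g n)) := by ring
        _ ≤ 2 * ρ * C := mul_le_mul_of_nonneg_left h6 (by positivity)
        _ = δ0 / 2 * 1 := by rw [hρ]; field_simp; norm_num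
        _ ≤ δ0 / 2 * q := mul_le_mul_of_nonneg_left hq1 (by positivity)
    have h10 := abs_le.1 (hY2 v.1 v.2)
    have h11 := abs_le.1 (hw2 v)
    rw [← hq]
    have e : δ0 * (q / Real.log (g n)) = δ0 / 2 * (q / Real.log (g n)) + δ0 / 2 * (q / Real.log (g n)) := by
      ring
    rw [e, abs_le]
    constructor <;> linarith [h10.1, h10.2, h11.1, h11.2]
  -- double counting
  have hsum : ∑ n ∈ E3, ((G.filter (R n)).card : ℝ) = ∑ p ∈ G, ((E3.filter (fun n => R n p)).card : ℝ) := by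
    have := Finset.sum_card_bipartiteAbove_eq_sum_card_bipartiteBelow (s := E3) (t := G) R
    exact_mod_cast this
  have h1 : (E3.card : ℝ) * ((θ * r) ^ D / 2) ≤ (r : ℝ) ^ D * (η' * N) := by
    calc (E3.card : ℝ) * ((θ * r) ^ D / 2) = ∑ _n ∈ E3, (θ * r) ^ D / 2 := by
          rw [Finset.sum_const, nsmul_eq_mul]
      _ ≤ ∑ n ∈ E3, ((G.filter (R n)).card : ℝ) := Finset.sum_le_sum hlow
      _ = ∑ p ∈ G, ((E3.filter (fun n => R n p)).card : ℝ) := hsum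
      _ ≤ ∑ _p ∈ G, η' * N := Finset.sum_le_sum hup
      _ = (G.card : ℝ) * (η' * N) := by rw [Finset.sum_const, nsmul_eq_mul]
      _ ≤ (Tt.card : ℝ) * (η' * N) := by
          apply mul_le_mul_of_nonneg_right _ (by positivity)
          rw [hG]
          exact_mod_cast Finset.card_le_card (filter_subset _ _)
      _ = _ := by rw [hTc]
  have c3 : (E3.card : ℝ) ≤ η / 4 * N := by
    have h2 : 0 < (θ * r) ^ D / 2 := by positivity
    apply le_of_mul_le_mul_right _ h2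
    refine h1.trans (le_of_eq ?_)
    rw [hη', mul_pow]
    ring
  have h2 := (Finset.card_le_card hcov).trans (Finset.card_union_le _ _)
  have h3 := Finset.card_union_le E1 E2
  have h4 : (E.card : ℝ) ≤ E1.card + E2.card + E3.card := by
    exact_mod_cast h2.trans (Nat.add_le_add_right h3 _)
  have h5 : 0 ≤ η * N := by positivity
  linarith

end

end Pool.Agent.J4.H86.FT
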