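import Pool.Agent.J4.H86.FT.Blk
import Pool.Agent.J4.H86.EB.Pat

/-! # The sequence of the ordinates -/

set_option autoImplicit false

namespace Pool.Agent.J4.H86.FT

open Finset Filter Pool.Agent.J4.H86.EB
open SG (ord NZ)

noncomputable section

theorem seq_ord : Seq ord where
  rare := by
    intro V _ _ v0 d σ η hσ hη
    exact mainV V v0 d σ η hσ hη
  mono := fun m n hm hmn => SG.ord_mono hm hmn
  pos := fun n hn => SG.ord_pos hn
  top := SG.ord_tendsto
  size := by
    obtain ⟨C, hC, N₀, -, h⟩ := Pool.Agent.R320.VQ.N_x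
    refine ⟨2 * C, by linarith, ?_⟩
    filter_upwards [eventually_ge_atTop N₀] with N hN
    have h1 := (h (2 * N) (by omega)).1
    push_cast at h1
    linarith
  size2 := by
    obtain ⟨C, hC, N₀, -, h⟩ := Pool.Agent.R320.VQ.N_x
    refine ⟨C, by linarith, ?_⟩
    filter_upwards [eventually_ge_atTop N₀] with N hN
    have h1 := (h (2 * N) (by omega)).2
    push_cast at h1
    have : (0 : ℝ) ≤ N := Nat.cast_nonneg _
    linarith
  low := by
    intro η hη
    obtain ⟨C2, hC2, N₀, -, h⟩ := Pool.Agent.R320.VQ.N_x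
    obtain ⟨C3, T3, hC3, hT3, hup⟩ := LG.GapAux.NZ_up
    obtain ⟨c, hc⟩ : ∃ c : ℝ, c = min 1 (η / (2 * C3 * C2)) := ⟨_, rfl⟩
    have hc0 : 0 < c := by rw [hc]; exact lt_min one_pos (by positivity)
    have hc1 : c ≤ 1 := by rw [hc]; exact min_le_left _ _
    have hc2 : c ≤ η / (2 * C3 * C2) := by rw [hc]; exact min_le_right _ _
    refine ⟨c, hc0, ?_⟩
    have t1 : Tendsto (fun N : ℕ => ord (2 * N)) atTop atTop :=
      SG.ord_tendsto.comp (tendsto_id.const_mul_atTop' (by norm_num : 0 < 2))
    filter_upwards [eventually_ge_atTop N₀, t1.eventually_ge_atTop (2 * T3 / c),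
      t1.eventually_ge_atTop 3] with N hN hN1 hN2
    obtain ⟨x, hx⟩ : ∃ x : ℝ, x = ord (2 * N) := ⟨_, rfl⟩
    rw [← hx] at hN1 hN2 ⊢
    have hx0 : 0 < x := by linarith
    have hsz := (h (2 * N) (by omega)).1
    rw [← hx] at hsz
    push_cast at hsz
    have a0 : (Finset.Icc 1 N).filter (fun n => ord n < c * x) ⊆ Finset.Icc 1 (NZ (c * x)) := by
      intro n hn
      rw [mem_filter, mem_Icc] at hn
      rw [mem_Icc]
      exact ⟨hn.1.1, (SG.ord_le_iff hn.1.1 _).1 hn.2.le⟩
    have a1 : (((Finset.Icc 1 N).filter (fun n => ord n < c * x)).card : ℝ) ≤ NZ (c * x) := by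
      have := Finset.card_le_card a0
      rw [Nat.card_Icc, Nat.add_sub_cancel] at this
      exact_mod_cast this
    rw [div_le_iff₀ hc0] at hN1
    have a2 := hup (c * x / 2) (by linarith)
    have e2 : 2 * (c * x / 2) = c * x := by ring
    rw [e2] at a2
    have a3 : c * x / 2 * Real.log (c * x / 2) ≤ c * (x * Real.log x) := by
      have b1 : Real.log (c * x / 2) ≤ Real.log x := Real.log_le_log (by positivity) (by nlinarith)
      have hlx : 0 ≤ Real.log x := Real.log_nonneg (by linarith)
      calc c * x / 2 * Real.log (c * x / 2) ≤ c * x / 2 * Real.log x := by gcongr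
        _ ≤ c * x * Real.log x := by
          apply mul_le_mul_of_nonneg_right _ hlx
          have : 0 < c * x := by positivity
          linarith
        _ = _ := by ring
    calc _ ≤ (NZ (c * x) : ℝ) := a1
      _ ≤ C3 * (c * (x * Real.log x)) := a2.trans (mul_le_mul_of_nonneg_left a3 hC3.le)
      _ ≤ C3 * (c * (C2 * (2 * N))) := by gcongr
      _ = (2 * C3 * C2) * c * N := by ring
      _ ≤ (2 * C3 * C2) * (η / (2 * C3 * C2)) * N := by gcongr
      _ = _ := by field_simp

end

end Pool.Agent.J4.H86.FT
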