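import Pool.Agent.J4.H86.FT.Fin

/-! # Polynomials with few terms -/

set_option autoImplicit false

namespace Pool.Agent.J4.H86.FT

open Finset MvPolynomial

noncomputable section

/-- polynomials with at most `T` monomials are functions with at most `T` terms -/
lemma poly_mem {V : Type} [Fintype V] {T : ℕ} {M : ℝ} (hM : 0 ≤ M) (P : MvPolynomial V ℝ) (h0 : P ≠ 0)
    (hT : P.support.card ≤ T) (hP : ∀ v, (P.degreeOf v : ℝ) ≤ M) :
    (fun x : V → ℝ => eval x P) ∈ FewTerms V T M := by
  classical
  obtain ⟨k, rfl⟩ := Nat.exists_eq_add_of_le hT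
  obtain ⟨e⟩ : Nonempty (Fin P.support.card ≃ P.support) := ⟨P.support.equivFin.symm⟩
  refine ⟨Fin.append (fun t => coeff (e t).1 P) (fun _ => 0),
    Fin.append (fun t v => (((e t).1 v : ℕ) : ℝ)) (fun _ _ => 0), ?_, ?_, ?_⟩
  · intro t v
    refine Fin.addCases (fun t => ?_) (fun t => ?_) t
    · rw [Fin.append_left, abs_of_nonneg (Nat.cast_nonneg _)]
      refine le_trans ?_ (hP v)
      exact_mod_cast monomial_le_degreeOf v (e t).2
    · rw [Fin.append_right]
      simpa using hM
  · funext x
    rw [Fin.sum_univ_add]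
    simp only [Fin.append_left, Fin.append_right, zero_mul, Finset.sum_const_zero, add_zero]
    rw [eval_eq', ← Finset.sum_coe_sort, ← Equiv.sum_comp e]
    refine Finset.sum_congr rfl fun t _ => ?_
    congr 1
    refine Finset.prod_congr rfl fun v _ => ?_
    rw [Real.rpow_natCast]
  · by_contra hcon
    push Not at hcon
    apply h0
    apply MvPolynomial.funext_set (fun _ : V => Set.Ioi (0 : ℝ)) (fun _ => Set.Ioi_infinite 0)
    intro x hx
    rw [map_zero]
    exact hcon x fun v => hx v (Set.mem_univ v)

end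

end Pool.Agent.J4.H86.FT
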